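import Mathlib

/-! # The conditions on the degrees -/

set_option autoImplicit false

namespace ZF

/-- The condition on the degrees `d i` of `r` forms in `n + 1` variables under which every function
on a curve over a `C₂` field is a norm from fields over which the forms have a common zero. -/
def LiftDeg (n : ℕ) {r : ℕ} (d : Fin r → ℕ) : Prop :=
  ∑ i, d i ^ 3 ≤ n ∨
  (∃ i, 2 ≤ d i ∧ d i ^ 3 + 2 * ∑ j ∈ Finset.univ.erase i, d j ^ 3 ≤ 2 * n + 1 ∧
    ∑ j ∈ Finset.univ.erase i, (d j ^ 3 + 2 * ∑ k ∈ Finset.range (d j), k ^ 3) ≤ n) ∨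
  (∀ i, d i = 2) ∧ 4 * r ≤ n ∧ 10 * r ≤ n + 18

/-- The condition on the degrees `d i` of `r` forms in `n + 1` variables under which the points of
the variety over a `C₂` field are rationally equivalent. -/
def FibDeg (n : ℕ) {r : ℕ} (d : Fin r → ℕ) : Prop :=
  ∑ i, d i * (2 * d i ^ 2 + 1) ≤ 3 * n ∨ (∀ i, d i = 2) ∧ 6 * r ≤ n + 4 ∨
  r = 1 ∧ ∀ i, 2 * ∑ k ∈ Finset.range (d i - 1), k ^ 2 + d i ^ 2 ≤ n

end ZF
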