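import Pool.Agent.Helper15.ZF.Line
import Pool.Agent.Helper33.ZC.DegZ

/-! # The push-forward -/

set_option autoImplicit false

open MvPolynomial ZC

namespace ZF

universe u

section push

variable {K : Type u} [Field K] {V ι R : Type} {p : V → ι} {n r : ℕ}
  {X : MVar K (addBlock n p) (Fin r ⊕ R)} {B : MVar K p R}

theorem coordField_le {L : Type*} [Field L] [Algebra K L] (x : Fin (n + 1) ⊕ V → L) :
    coordField K p (fun v => x (Sum.inr v)) ≤ coordField K (addBlock n p) x := by
  refine IntermediateField.adjoin.mono K _ _ ?_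
  rintro z ⟨a, b, hab, rfl⟩
  exact ⟨Sum.inr a, Sum.inr b, congrArg some hab, rfl⟩

theorem pushZ_single (h : X.IsOver B) (P : ClosedPoint X) (m : ℤ) :
    pushZ h (Finsupp.single P m) = m • pushPt h P := by
  rw [pushZ, linExt_single]

/-- The push-forward of a point. -/
theorem pushZ_ptCycle (h : X.IsOver B) {L : Type*} [Field L] [Algebra K L]
    [FiniteDimensional K L] (x : Fin (n + 1) ⊕ V → L) (hx : X.IsPt x) :
    pushZ h (ptCycle X x hx) = ptCycle B (fun v => x (Sum.inr v)) (h.isPt hx) := by
  have halg : Algebra.IsAlgebraic K L := inferInstance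
  rw [ptCycle, ptCycle, dif_pos halg, dif_pos halg, pushZ_single]
  have e1 := coordField_image (p := addBlock n p)
    (IsAlgClosed.lift : L →ₐ[K] AlgebraicClosure K) (fun _ => 1) (fun _ => one_ne_zero)
    (x := x) (fun v => (one_mul _).symm)
  have e2 := coordField_image (p := p)
    (IsAlgClosed.lift : L →ₐ[K] AlgebraicClosure K) (fun _ => 1) (fun _ => one_ne_zero)
    (x := fun v => x (Sum.inr v)) (fun v => (one_mul _).symm)
  have e3 : pushPt h (closedPt X x hx) = Finsupp.single
      (closedPt B (fun v => x (Sum.inr v)) (h.isPt hx))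
      (IntermediateField.relfinrank (coordField K p fun v => x (Sum.inr v))
        (coordField K (addBlock n p) x) : ℤ) := by
    rw [← IntermediateField.relfinrank_map_map _ _
      (IsAlgClosed.lift : L →ₐ[K] AlgebraicClosure K), ← e1, ← e2]
    rfl
  rw [e3, Finsupp.smul_single, smul_eq_mul, ← IntermediateField.relfinrank_mul_finrank_top
    (coordField_le x)]
  congr 1
  push_cast
  ring

/-- The value of the image in `B` at a place. -/
theorem ptCycle_red_base [Finite V] (h : X.IsOver B) {E : Type u} [Field E] [Algebra K E]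
    (w : Place K E) (x : Fin (n + 1) ⊕ V → E) (hx : X.IsPt x) :
    ptCycle B (fun v => red w (addBlock n p) x hx.1 (Sum.inr v)) (h.isPt (red_isPt X w x hx)) =
      ptCycle B (red w p (fun v => x (Sum.inr v)) (h.isPt hx).1)
        (red_isPt B w (fun v => x (Sum.inr v)) (h.isPt hx)) := by
  set u : ι → Fin (n + 1) ⊕ V := fun j => (exists_max w (addBlock n p) x hx.1 (some j)).choose
    with hu
  have hu1 : ∀ j, addBlock n p (u j) = some j := fun j =>
    (exists_max w (addBlock n p) x hx.1 (some j)).choose_spec.1
  have hu2 : ∀ j, x (u j) ≠ 0 := fun j =>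
    (exists_max w (addBlock n p) x hx.1 (some j)).choose_spec.2.1
  have hu3 : ∀ v : V, x (Sum.inr v) / x (u (p v)) ∈ w.A := fun v =>
    (exists_max w (addBlock n p) x hx.1 (some (p v))).choose_spec.2.2 (Sum.inr v) rfl
  obtain ⟨c, hc, h1⟩ := red_eq w (fun v => x (Sum.inr v)) (h.isPt hx).1 (fun j => x (u j))
    (fun v => ⟨x (Sum.inr v) / x (u (p v)), hu3 v⟩)
    (fun v => (mul_div_cancel₀ _ (hu2 (p v))).symm) (fun j => by
      rcases hv : u j with v | v
      · have := hu1 j
        rw [hv] at this
        exact absurd this (by simp [addBlock])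
      · have h2 := hu1 j
        rw [hv] at h2
        have h3 : p v = j := Option.some_injective _ h2
        refine ⟨v, h3, ?_⟩
        have : (⟨x (Sum.inr v) / x (u (p v)), hu3 v⟩ : w.A) = 1 := Subtype.ext (by
          change x (Sum.inr v) / x (u (p v)) = 1
          rw [h3, hv]
          exact div_self (hv ▸ hu2 j))
        rw [this]
        exact isUnit_one)
  exact ptCycle_congr B AlgEquiv.refl c hc _ _ h1

end push

section chow

variable {K : Type u} [Field K] {V ι R : Type} [Finite V] {p : V → ι} {n r : ℕ}
  {X : MVar K (addBlock n p) (Fin r ⊕ R)} {B : MVar K p R}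

/-- The support of the divisor of a function is finite. -/
theorem finite_support {E : Type u} [Field E] [Algebra K E] (hE : IsCurveField K E) (g : E)
    {M : Type*} [AddCommGroup M] (f : Place K E → M) :
    Function.HasFiniteSupport fun w : Place K E => w.ord g • f w := by
  refine (Place.finite_ord hE.hRel g).subset fun w hw h => hw ?_
  change w.ord g • f w = 0
  rw [h, zero_smul]

/-- The push-forward of the cycle of a function. -/
theorem pushZ_curveCycle (h : X.IsOver B) {E : Type u} [Field E] [Algebra K E]
    (hE : IsCurveField K E) (x : Fin (n + 1) ⊕ V → E) (hx : X.IsPt x) (g : E) :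
    pushZ h (curveCycle X x hx g) = curveCycle B (fun v => x (Sum.inr v)) (h.isPt hx) g := by
  rw [curveCycle, curveCycle, AddMonoidHom.map_finsum _ (finite_support hE g _)]
  refine finsum_congr fun w => ?_
  have := Place.finite_residue hE w
  rw [map_zsmul, pushZ_ptCycle, ptCycle_red_base h w x hx]

theorem ratEquiv_le_comap (h : X.IsOver B) : ratEquiv X ≤ (ratEquiv B).comap (pushZ h) := by
  rw [ratEquiv, AddSubgroup.closure_le]
  rintro c ⟨E, iF, iA, hE, x, hx, g, hg, rfl⟩
  exact AddSubgroup.subset_closure ⟨E, iF, iA, hE, _, h.isPt hx, g, hg,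
    pushZ_curveCycle h hE x hx g⟩

/-- The push-forward of zero-cycle classes from `X` to `B`. -/
noncomputable def CH0.push (h : X.IsOver B) : CH0 X →+ CH0 B :=
  QuotientAddGroup.map (ratEquiv X) (ratEquiv B) (pushZ h) (ratEquiv_le_comap h)

/-- The push-forward along the projection from `X` to `B` is an isomorphism. -/
def PushIso (h : X.IsOver B) : Prop :=
  Function.Bijective (CH0.push h)

theorem CH0.push_mk (h : X.IsOver B) (c : ClosedPoint X →₀ ℤ) :
    CH0.push h (CH0.mk X c) = CH0.mk B (pushZ h c) := rfl

theorem CH0.mk_eq_zero (X : MVar K p R) {c : ClosedPoint X →₀ ℤ} (h : c ∈ ratEquiv X) :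
    CH0.mk X c = 0 :=
  (QuotientAddGroup.eq_zero_iff c).2 h

theorem CH0.mk_surjective (X : MVar K p R) : Function.Surjective (CH0.mk X) :=
  QuotientAddGroup.mk'_surjective (ratEquiv X)

end chow

end ZF
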