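import Pool.Agent.Helper15.ZF.Norm3
import Pool.Agent.Helper15.ZF.Push

/-! # The cycle of a norm -/

set_option autoImplicit false

universe u

namespace ZC

section res

variable {K : Type u} (E : Type u) {E' : Type u} [Field K] [Field E] [Field E'] [Algebra K E]
  [Algebra K E'] [Algebra E E'] [IsScalarTower K E E'] [Algebra.IsAlgebraic E E']

/-- The map of the valuation rings. -/
noncomputable def Place.ringMap (w' : Place K E') : (w'.under E).A →+* w'.A :=
  (algebraMap E E').restrict (w'.under E).A w'.A fun _ ha => ha

instance (w' : Place K E') : IsLocalHom (Place.ringMap E w') := by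
  constructor
  intro a ha
  by_cases h0 : (a : E) = 0
  · have h1 : a = 0 := Subtype.ext h0
    rw [h1, map_zero] at ha
    exact absurd ha not_isUnit_zero
  obtain ⟨v, hv⟩ := ha
  have h2 : algebraMap E E' (a : E) = ((v : w'.A) : E') := (congrArg Subtype.val hv).symm
  have h3 : ((v : w'.A) : E') * ((↑(v⁻¹) : w'.A) : E') = 1 := congrArg Subtype.val (v.mul_inv)
  have h4 : algebraMap E E' (a : E)⁻¹ ∈ w'.A := by
    rw [map_inv₀, h2, (eq_inv_of_mul_eq_one_right h3).symm]
    exact SetLike.coe_mem _
  have h5 : (a : E)⁻¹ ∈ (w'.under E).A := h4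
  exact IsUnit.of_mul_eq_one (b := ⟨_, h5⟩) (Subtype.ext (mul_inv_cancel₀ h0))

/-- The map of the residue fields. -/
noncomputable def Place.resMap (w' : Place K E') : (w'.under E).res →ₐ[K] w'.res :=
  { IsLocalRing.ResidueField.map (Place.ringMap E w') with
    commutes' := fun r => by
      have h1 : Place.ringMap E w' (algebraMap K (w'.under E).A r) = algebraMap K w'.A r :=
        Subtype.ext (IsScalarTower.algebraMap_apply K E E' r).symm
      change IsLocalRing.ResidueField.map (Place.ringMap E w')
        (IsLocalRing.residue _ (algebraMap K (w'.under E).A r)) =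
        IsLocalRing.residue _ (algebraMap K w'.A r)
      rw [IsLocalRing.ResidueField.map_residue, h1] }

/-- The residue degree. -/
noncomputable def Place.inert (w' : Place K E') : ℕ :=
  letI := (Place.resMap E w').toRingHom.toAlgebra
  Module.finrank (w'.under E).res w'.res

theorem Place.deg_eq (w' : Place K E') : w'.deg = (w'.under E).deg * Place.inert E w' := by
  let _ := (Place.resMap E w').toRingHom.toAlgebra
  have : IsScalarTower K (w'.under E).res w'.res :=
    IsScalarTower.of_algebraMap_eq fun a => ((Place.resMap E w').commutes a).symm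
  exact (Module.finrank_mul_finrank K (w'.under E).res w'.res).symm

variable {E}

theorem sum_lying_inert (hE : IsCurveField K E) (hE' : IsCurveField K E') [FiniteDimensional E E']
    {θ : E'} (hθ : θ ≠ 0) (w : Place K E) :
    ∑ w' ∈ lying hE hE' w, w'.ord θ * (Place.inert E w' : ℤ) = w.ord (Algebra.norm E θ) := by
  have h1 := sum_lying hE hE' hθ w
  have h2 : (w.deg : ℤ) ≠ 0 := by
    have := w.deg_pos' hE
    omega
  apply mul_right_cancel₀ h2
  rw [← h1, Finset.sum_mul]
  refine Finset.sum_congr rfl fun w' hw' => ?_
  rw [mem_lying] at hw'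
  rw [Place.deg_eq E w', hw']
  push_cast
  ring

end res

end ZC

namespace ZF

open MvPolynomial ZC

section curve

variable {K : Type u} [Field K] {V ι R : Type} [Finite V] {p : V → ι} {E E' : Type u} [Field E]
  [Field E'] [Algebra K E] [Algebra K E'] [Algebra E E'] [IsScalarTower K E E']

/-- The value of a point which is defined over the smaller field. -/
theorem ptCycle_red_under (B : MVar K p R) [FiniteDimensional E E'] (hE : IsCurveField K E)
    (hE' : IsCurveField K E') (y : V → E) (hy : B.IsPt y)
    (hy' : B.IsPt fun v => algebraMap E E' (y v)) (w' : Place K E') :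
    ptCycle B (red w' p _ hy'.1) (red_isPt B w' _ hy') =
      (Place.inert E w' : ℤ) • ptCycle B (red (w'.under E) p y hy.1)
        (red_isPt B (w'.under E) y hy) := by
  set w := w'.under E with hw
  set u : ι → V := fun j => (exists_max w p y hy.1 j).choose with hu
  have hu1 : ∀ j, p (u j) = j := fun j => (exists_max w p y hy.1 j).choose_spec.1
  have hu2 : ∀ j, y (u j) ≠ 0 := fun j => (exists_max w p y hy.1 j).choose_spec.2.1
  have hu3 : ∀ v : V, y v / y (u (p v)) ∈ w.A := fun v =>
    (exists_max w p y hy.1 (p v)).choose_spec.2.2 v rfl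
  obtain ⟨c, hc, h1⟩ := red_eq w' (fun v => algebraMap E E' (y v)) hy'.1
    (fun j => algebraMap E E' (y (u j)))
    (fun v => Place.ringMap E w' ⟨y v / y (u (p v)), hu3 v⟩)
    (fun v => by
      change algebraMap E E' (y v) = algebraMap E E' (y (u (p v))) *
        algebraMap E E' (y v / y (u (p v)))
      rw [← map_mul, mul_div_cancel₀ _ (hu2 (p v))]) (fun j => by
      refine ⟨u j, hu1 j, ?_⟩
      have : (⟨y (u j) / y (u (p (u j))), hu3 (u j)⟩ : w.A) = 1 := Subtype.ext (by
        change y (u j) / y (u (p (u j))) = 1
        rw [hu1 j]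
        exact div_self (hu2 j))
      rw [this, map_one]
      exact isUnit_one)
  have := Place.finite_residue hE w
  have := Place.finite_residue hE' w'
  have h2 := ptCycle_tower B (Place.resMap E w') (red_isPt B w y hy)
    (isPt_comp B (Place.resMap E w') (red_isPt B w y hy))
  rw [← ptCycle_congr B AlgEquiv.refl c hc (isPt_comp B (Place.resMap E w') (red_isPt B w y hy))
    (red_isPt B w' _ hy') h1, h2]
  rfl

/-- **The cycle of a norm.** -/
theorem curveCycle_norm (B : MVar K p R) [FiniteDimensional E E'] (hE : IsCurveField K E)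
    (y : V → E) (hy : B.IsPt y) (hy' : B.IsPt fun v => algebraMap E E' (y v)) (θ : E')
    (hθ : θ ≠ 0) :
    curveCycle B (fun v => algebraMap E E' (y v)) hy' θ = curveCycle B y hy (Algebra.norm E θ) := by
  classical
  have hE' : IsCurveField K E' := isCurveField_of_finite hE
  set S : Finset (Place K E) := (Place.finite_ord hE.hRel (Algebra.norm E θ)).toFinset ∪
    (Place.finite_ord hE'.hRel θ).toFinset.image (Place.under E) with hS
  have hS1 : ∀ w : Place K E, w.ord (Algebra.norm E θ) ≠ 0 → w ∈ S := fun w hw =>
    Finset.mem_union_left _ ((Set.Finite.mem_toFinset _).2 hw)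
  have hS2 : ∀ w' : Place K E', w'.ord θ ≠ 0 → w' ∈ S.biUnion (lying hE hE') := fun w' hw' =>
    Finset.mem_biUnion.2 ⟨w'.under E, Finset.mem_union_right _ (Finset.mem_image_of_mem _
      ((Set.Finite.mem_toFinset _).2 hw')), (mem_lying hE hE' _ _).2 rfl⟩
  rw [curveCycle, curveCycle, finsum_eq_sum_of_support_subset (s := S) _ (fun w hw => by
    refine hS1 w fun h0 => hw ?_
    change w.ord (Algebra.norm E θ) • ptCycle B (red w p y hy.1) (red_isPt B w y hy) = 0
    rw [h0, zero_smul]), finsum_eq_sum_of_support_subset (s := S.biUnion (lying hE hE')) _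
    (fun w' hw' => by
      refine hS2 w' fun h0 => hw' ?_
      change w'.ord θ • ptCycle B (red w' p _ hy'.1) (red_isPt B w' _ hy') = 0
      rw [h0, zero_smul]), Finset.sum_biUnion (by
    intro w₁ _ w₂ _ h12
    rw [Function.onFun, Finset.disjoint_left]
    intro w' h3 h4
    rw [mem_lying] at h3 h4
    exact h12 (h3.symm.trans h4))]
  refine Finset.sum_congr rfl fun w _ => ?_
  rw [← sum_lying_inert hE hE' hθ w, Finset.sum_smul]
  refine Finset.sum_congr rfl fun w' hw' => ?_
  rw [mem_lying] at hw'
  subst hw'
  rw [ptCycle_red_under B hE hE' y hy hy' w', smul_smul]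

end curve

end ZF
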