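import Mathlib

/-! # Sets of norms

`NormSet f S`: the set `S` in the field `E` is closed under products and inverses and contains
`P(0) / lc(P)` for every polynomial `P` whose roots in all finite extensions `E'` of `E` force the
system of forms `f` to have a nontrivial zero over `E'`. -/

set_option autoImplicit false

open Polynomial

namespace ZF

universe u

/-- The set `S` contains the norms from the finite extensions over which `f` has a nontrivial
zero. -/
structure NormSet {E : Type u} [Field E] {σ ι : Type} (f : ι → MvPolynomial σ E)
    (S : Set E) : Prop where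
  mul : ∀ a b, a ∈ S → b ∈ S → a * b ∈ S
  inv : ∀ a, a ∈ S → a⁻¹ ∈ S
  poly : ∀ P : E[X], P.coeff 0 ≠ 0 →
    (∀ (M : Type u) [Field M] [Algebra E M] [FiniteDimensional E M] (t : M), aeval t P = 0 →
      ∃ x : σ → M, x ≠ 0 ∧ ∀ i, MvPolynomial.aeval x (f i) = 0) →
    P.coeff 0 / P.leadingCoeff ∈ S

end ZF
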