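import Pool.Agent.Helper15.ZF.Fibre
import Pool.Agent.Helper15.ZF.LowDeg
import Pool.Agent.Helper63.ZF.Lifts
import Pool.Agent.Helper63.ZF.Norms
import Pool.Agent.Helper63.ZF.FibEq
import Pool.Agent.Helper91.ZF.Split

/-! # The push-forward is an isomorphism -/

set_option autoImplicit false

open MvPolynomial ZC

namespace ZF

universe u

section emb

variable {K : Type u} [Field K] {V ι R : Type} {p : V → ι}

/-- A point over the closed point of a geometric point `y` is defined over the residue field of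
`y`. -/
theorem exists_emb (B : MVar K p R) {L : Type u} [Field L] [Algebra K L]
    [FiniteDimensional K L] (x : V → L) (hx : B.IsPt x) (y : GPt B)
    (hxy : closedPt B x hx = Quotient.mk (gSetoid B) y) :
    ∃ (τ : coordField K p y.1 →ₐ[K] L) (c : ι → L), (∀ j, c j ≠ 0) ∧
      ∀ v, x v = c (p v) * τ (nrm y v) := by
  obtain ⟨s, c, hc, h⟩ := Quotient.exact hxy.symm
  set lf : L →ₐ[K] AlgebraicClosure K := IsAlgClosed.lift with hlf
  have h1 : ∀ v, lf (x v) = c (p v) * (s : AlgebraicClosure K →ₐ[K] AlgebraicClosure K) (y.1 v) :=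
    h
  have e1 : coordField K p (fun v => lf (x v)) = (coordField K p y.1).map
      (s : AlgebraicClosure K →ₐ[K] AlgebraicClosure K) := coordField_image _ c hc h1
  have e2 : coordField K p (fun v => lf (x v)) = (coordField K p x).map lf :=
    coordField_image lf (fun _ => 1) (fun _ => one_ne_zero) (fun v => (one_mul _).symm)
  have hmem : ∀ a : coordField K p y.1, (((s : AlgebraicClosure K →ₐ[K] AlgebraicClosure K).comp
      (coordField K p y.1).val) a) ∈ lf.range := by
    intro a
    have h2 : s (a : AlgebraicClosure K) ∈ (coordField K p y.1).map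
        (s : AlgebraicClosure K →ₐ[K] AlgebraicClosure K) := ⟨a, a.2, rfl⟩
    rw [← e1, e2] at h2
    obtain ⟨b, -, hb⟩ := h2
    exact ⟨b, hb⟩
  let τ : coordField K p y.1 →ₐ[K] L :=
    ((AlgEquiv.ofInjectiveField lf).symm : lf.range →ₐ[K] L).comp
      (AlgHom.codRestrict ((s : AlgebraicClosure K →ₐ[K] AlgebraicClosure K).comp
        (coordField K p y.1).val) lf.range hmem)
  have hτ : ∀ a, lf (τ a) = s (a : AlgebraicClosure K) := by
    intro a
    have h2 := (AlgEquiv.ofInjectiveField lf).apply_symm_apply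
      (AlgHom.codRestrict ((s : AlgebraicClosure K →ₐ[K] AlgebraicClosure K).comp
        (coordField K p y.1).val) lf.range hmem a)
    exact congrArg Subtype.val h2
  obtain ⟨c₂, hc₂, h₂⟩ := nrm_val y
  have h3 : ∀ v, lf (x v) = (c (p v) * s (c₂ (p v))) * lf (τ (nrm y v)) := by
    intro v
    have h4 := h1 v
    rw [h₂ v] at h4
    rw [h4, hτ, mul_assoc]
    congr 1
    exact map_mul s _ _
  have h0 : ∀ j, c j * s (c₂ j) ≠ 0 := fun j =>
    mul_ne_zero (hc j) ((_root_.map_ne_zero s).2 (hc₂ j))
  choose v₀ hv₀ hn₀ using (nrm_isPt y).1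
  have h5 : ∀ j, lf (x (v₀ j) / τ (nrm y (v₀ j))) = c j * s (c₂ j) := by
    intro j
    have h6 : lf (τ (nrm y (v₀ j))) ≠ 0 :=
      (_root_.map_ne_zero lf).2 ((_root_.map_ne_zero τ).2 (hn₀ j))
    rw [map_div₀, h3, hv₀, mul_div_cancel_right₀ _ h6]
  refine ⟨τ, fun j => x (v₀ j) / τ (nrm y (v₀ j)), fun j hj => ?_, fun v => ?_⟩
  · have hj' : x (v₀ j) / τ (nrm y (v₀ j)) = 0 := hj
    have h6 := h5 j
    rw [hj', map_zero] at h6
    exact h0 j h6.symm
  · have h6 : lf (x v) = lf (x (v₀ (p v)) / τ (nrm y (v₀ (p v))) * τ (nrm y v)) := by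
      rw [map_mul, h5, h3]
    exact lf.injective h6

end emb

section sec

variable {K : Type u} [Field K] {V ι R : Type} [Finite V] {p : V → ι} {n r : ℕ}
  {X : MVar K (addBlock n p) (Fin r ⊕ R)} {B : MVar K p R}

/-- The hypotheses on a family of intersections of hypersurfaces of low degree. -/
structure Low (X : MVar K (addBlock n p) (Fin r ⊕ R)) (B : MVar K p R) : Prop where
  isOver : X.IsOver B
  pos : ∀ i, 0 < X.deg (Sum.inl i) none
  lift : LiftDeg n fun i => X.deg (Sum.inl i) none
  fib : FibDeg n fun i => X.deg (Sum.inl i) none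

omit [Finite V] in
theorem Low.bc (h : Low X B) (L : Type u) [Field L] [Algebra K L] :
    Low (X.bc L) (B.bc L) :=
  ⟨h.isOver.bc L, h.pos, h.lift, h.fib⟩

theorem exists_sec (h : Low X B) (hK : C2 K) (y : GPt B) :
    ∃ x : Fin (n + 1) → coordField K p y.1, X.IsPt (Sum.elim x (nrm y)) := by
  have := coordField_finite (p := p) y.1
  exact exists_lift h.isOver (q := 2) (hasC_two hK.finite) h.pos h.lift.sum_sq_le _
    (nrm_isPt y)

/-- The section of the push-forward on closed points. -/
noncomputable def secPt (h : Low X B) (hK : C2 K) (b : ClosedPoint B) : ClosedPoint X →₀ ℤ :=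
  ptCycle X (Sum.elim (exists_sec h hK b.out).choose (nrm b.out))
    (exists_sec h hK b.out).choose_spec

/-- The section of the push-forward on zero-cycles. -/
noncomputable def secZ (h : Low X B) (hK : C2 K) :
    (ClosedPoint B →₀ ℤ) →+ (ClosedPoint X →₀ ℤ) :=
  linExt (secPt h hK)

theorem secZ_single (h : Low X B) (hK : C2 K) (b : ClosedPoint B) :
    secZ h hK (Finsupp.single b 1) = secPt h hK b := by
  rw [secZ, linExt_single, one_smul]

theorem single_out (b : ClosedPoint B) :
    ptCycle B (nrm b.out) (nrm_isPt b.out) = Finsupp.single b 1 := by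
  rw [← single_eq_ptCycle]
  congr 1
  exact Quotient.out_eq b

theorem pushZ_secPt (h : Low X B) (hK : C2 K) (b : ClosedPoint B) :
    pushZ h.isOver (secPt h hK b) = Finsupp.single b 1 := by
  have := coordField_finite (p := p) b.out.1
  rw [secPt, pushZ_ptCycle]
  exact single_out b

theorem pushZ_secZ (h : Low X B) (hK : C2 K) (c : ClosedPoint B →₀ ℤ) :
    pushZ h.isOver (secZ h hK c) = c := by
  induction c using Finsupp.induction_linear with
  | zero => rw [map_zero, map_zero]
  | add f g hf hg => rw [map_add, map_add, hf, hg]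
  | single P a =>
    have : Finsupp.single P a = a • Finsupp.single P (1 : ℤ) := by
      rw [Finsupp.smul_single, smul_eq_mul, mul_one]
    rw [this, map_zsmul, map_zsmul, secZ_single, pushZ_secPt]

/-- Every point of `X` is rationally equivalent to the section of its image. -/
theorem sec_equiv (h : Low X B) (hK : C2 K) {L : Type u} [Field L] [Algebra K L]
    [FiniteDimensional K L] (q : Fin (n + 1) ⊕ V → L) (hq : X.IsPt q) :
    ptCycle X q hq - secZ h hK (ptCycle B (fun v => q (Sum.inr v)) (h.isOver.isPt hq)) ∈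
      ratEquiv X := by
  set y : V → L := fun v => q (Sum.inr v) with hy
  have hyB : B.IsPt y := h.isOver.isPt hq
  set b : ClosedPoint B := closedPt B y hyB with hb
  obtain ⟨τ, c, hc, hτ⟩ := exists_emb B y hyB b.out (Quotient.out_eq b).symm
  have hfd := coordField_finite (p := p) b.out.1
  set xb := (exists_sec h hK b.out).choose with hxb
  have hxb' : X.IsPt (Sum.elim xb (nrm b.out)) := (exists_sec h hK b.out).choose_spec
  have h1 : X.IsPt fun v => τ (Sum.elim xb (nrm b.out) v) := isPt_comp X τ hxb'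
  let c' : Option ι → L := fun j => Option.elim j 1 c
  have hc' : ∀ j, c' j ≠ 0 := by
    rintro (_ | j)
    · exact one_ne_zero
    · exact hc j
  have h2 : ∀ v, (Sum.elim (fun a => τ (xb a)) y : Fin (n + 1) ⊕ V → L) v =
      c' (addBlock n p v) * τ (Sum.elim xb (nrm b.out) v) := by
    rintro (a | v)
    · exact (one_mul _).symm
    · exact hτ v
  have h3 : X.IsPt (Sum.elim (fun a => τ (xb a)) y) := isPt_scale X c' hc' h1 h2
  have hq' : q = Sum.elim (fun a => q (Sum.inl a)) y := by
    funext v
    rcases v with a | v <;> rfl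
  have hq2 : X.IsPt (Sum.elim (fun a => q (Sum.inl a)) y) := hq' ▸ hq
  have e1 := fibre_equiv_of h.isOver (hK.finite : C2 L) h.pos h.fib (fun a => q (Sum.inl a))
    (fun a => τ (xb a)) y hq2 h3
  have e2 : ptCycle X (Sum.elim (fun a => τ (xb a)) y) h3 =
      ptCycle X (fun v => τ (Sum.elim xb (nrm b.out) v)) h1 :=
    (ptCycle_congr X AlgEquiv.refl c' hc' h1 h3 h2).symm
  have e3 := ptCycle_tower X τ hxb' h1
  have e4 : ptCycle B y hyB = ptCycle B (fun v => τ (nrm b.out v))
      (isPt_comp B τ (nrm_isPt b.out)) :=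
    (ptCycle_congr B AlgEquiv.refl c hc _ _ hτ).symm
  have e5 := ptCycle_tower B τ (nrm_isPt b.out) (isPt_comp B τ (nrm_isPt b.out))
  rw [single_out] at e5
  have e6 : secZ h hK (ptCycle B y hyB) = ptCycle X (Sum.elim (fun a => τ (xb a)) y) h3 := by
    rw [e4, e5, map_zsmul, secZ_single, e2, e3]
    rfl
  rw [e6, ptCycle_of_eq X hq hq2 hq']
  exact e1

theorem mk_sec (h : Low X B) (hK : C2 K) {L : Type u} [Field L] [Algebra K L]
    [FiniteDimensional K L] (q : Fin (n + 1) ⊕ V → L) (hq : X.IsPt q) :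
    CH0.mk X (secZ h hK (ptCycle B (fun v => q (Sum.inr v)) (h.isOver.isPt hq))) =
      CH0.mk X (ptCycle X q hq) := by
  have := CH0.mk_eq_zero X (sec_equiv h hK q hq)
  rw [map_sub, sub_eq_zero] at this
  exact this.symm

/-- Every zero-cycle is rationally equivalent to the section of its push-forward. -/
theorem mk_sec_pushZ (h : Low X B) (hK : C2 K) (c : ClosedPoint X →₀ ℤ) :
    CH0.mk X (secZ h hK (pushZ h.isOver c)) = CH0.mk X c := by
  induction c using Finsupp.induction_linear with
  | zero => rw [map_zero, map_zero]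
  | add f g hf hg => rw [map_add, map_add, map_add, hf, hg, map_add]
  | single P a =>
    have h1 : Finsupp.single P a = a • Finsupp.single P (1 : ℤ) := by
      rw [Finsupp.smul_single, smul_eq_mul, mul_one]
    have := coordField_finite (p := addBlock n p) P.out.1
    rw [h1, map_zsmul, map_zsmul, map_zsmul, map_zsmul, ← single_out P, pushZ_ptCycle, mk_sec]

theorem ratEquiv_le_sec (h : Low X B) (hK : C2 K) :
    ratEquiv B ≤ (ratEquiv X).comap (secZ h hK) := by
  rw [ratEquiv, AddSubgroup.closure_le]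
  rintro c ⟨E, iF, iA, hE, y, hy, g, hg, rfl⟩
  obtain ⟨-, c', hc', h1⟩ := NormSet.of_liftDeg (HasC.curveField (hasC_two hK) hE)
    (exists_nonsquare hE) h.pos h.lift (fib X y).form (fib X y).hom
    (normSet_lifts h.isOver hE y hy) g hg
  have h2 := mk_sec_pushZ h hK c'
  rw [h1, CH0.mk_eq_zero X hc'] at h2
  exact (QuotientAddGroup.eq_zero_iff (secZ h hK (curveCycle B y hy g))).1 h2

/-- The section of the push-forward on classes. -/
noncomputable def CH0.sec (h : Low X B) (hK : C2 K) : CH0 B →+ CH0 X :=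
  QuotientAddGroup.map (ratEquiv B) (ratEquiv X) (secZ h hK) (ratEquiv_le_sec h hK)

theorem CH0.sec_mk (h : Low X B) (hK : C2 K) (c : ClosedPoint B →₀ ℤ) :
    CH0.sec h hK (CH0.mk B c) = CH0.mk X (secZ h hK c) := rfl

theorem CH0.push_sec (h : Low X B) (hK : C2 K) (c : CH0 B) :
    CH0.push h.isOver (CH0.sec h hK c) = c := by
  obtain ⟨c, rfl⟩ := CH0.mk_surjective B c
  rw [CH0.sec_mk, CH0.push_mk, pushZ_secZ]

theorem CH0.sec_push (h : Low X B) (hK : C2 K) (c : CH0 X) :
    CH0.sec h hK (CH0.push h.isOver c) = c := by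
  obtain ⟨c, rfl⟩ := CH0.mk_surjective X c
  rw [CH0.push_mk, CH0.sec_mk, mk_sec_pushZ]

/-- **The push-forward is an isomorphism.** -/
theorem CH0.push_bijective (h : Low X B) (hK : C2 K) :
    Function.Bijective (CH0.push h.isOver) :=
  Function.bijective_iff_has_inverse.2 ⟨CH0.sec h hK, CH0.sec_push h hK, CH0.push_sec h hK⟩

end sec

end ZF
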