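import Pool.Agent.Helper15.ZF.BCDefs
import Pool.Agent.Helper15.ZF.Section

/-! # Base change of zero-cycles -/

set_option autoImplicit false

open MvPolynomial ZC TensorProduct

namespace ZF

universe u

section length

theorem length_ringEquiv {S T : Type*} [CommRing S] [CommRing T] (e : S ≃+* T) :
    Module.length S S = Module.length T T := by
  let _ : Algebra S T := e.toRingHom.toAlgebra
  have h1 : Function.Surjective (algebraMap S T) := e.surjective
  rw [← Module.length_eq_of_surjective (S := S) (R := T) (M := T) h1]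
  let f : S ≃ₗ[S] T :=
    { e with
      map_smul' := fun a b => by
        change e (a * b) = algebraMap S T a * e b
        exact map_mul e a b }
  exact f.length_eq

theorem finsum_bij {α β M : Type*} [AddCommMonoid M] (e : α ≃ β) (f : α → M) (g : β → M)
    (h : ∀ a, f a = g (e a)) : ∑ᶠ a, f a = ∑ᶠ b, g b := by
  exact finsum_eq_of_bijective e e.bijective h

end length

section congr

variable {K : Type u} [Field K] {V ι R : Type} {p : V → ι}

/-- The base change of a point does not depend on the field `L` and the coordinates. -/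
theorem bcPt_congr (X : MVar K p R) (K' : Type u) [Field K'] [Algebra K K'] {L L' : Type u}
    [Field L] [Algebra K L] [Field L'] [Algebra K L'] (σ : L ≃ₐ[K] L') (c : ι → L')
    (hc : ∀ j, c j ≠ 0) {x : V → L} {y : V → L'} (hx : X.IsPt x) (hy : X.IsPt y)
    (h : ∀ v, y v = c (p v) * σ (x v)) : bcPt X K' x hx = bcPt X K' y hy := by
  unfold bcPt specCycle
  let e : (K' ⊗[K] L) ≃ₐ[K'] (K' ⊗[K] L') := Algebra.TensorProduct.congr AlgEquiv.refl σ
  refine finsum_bij (PrimeSpectrum.comapEquiv e.toRingEquiv).toEquiv _ _ fun P => ?_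
  obtain ⟨Q, rfl⟩ := (PrimeSpectrum.comapEquiv e.toRingEquiv).symm.surjective P
  have hQ : (PrimeSpectrum.comapEquiv e.toRingEquiv).toEquiv
      ((PrimeSpectrum.comapEquiv e.toRingEquiv).symm Q) = Q :=
    (PrimeSpectrum.comapEquiv e.toRingEquiv).apply_symm_apply Q
  rw [hQ]
  set P := (PrimeSpectrum.comapEquiv e.toRingEquiv).symm Q with hP
  have hPQ : P.asIdeal = Q.asIdeal.comap (e : (K' ⊗[K] L) ≃ₐ[K'] (K' ⊗[K] L')) := rfl
  rw [mult, mult,
    length_ringEquiv (Localization.localRingEquiv P.asIdeal Q.asIdeal e.toRingEquiv hPQ)]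
  congr 1
  refine ptCycle_congr (X.bc K') (Ideal.residueFieldAlgEquiv P.asIdeal Q.asIdeal e hPQ)
    (fun j => ev Q (1 ⊗ₜ[K] c j)) (fun j => ?_) _ _
    (fun v => ?_)
  · have : ((ev Q).comp
      (Algebra.TensorProduct.includeRight : L' →ₐ[K] K' ⊗[K] L').toRingHom) (c j) ≠ 0 :=
      (_root_.map_ne_zero _).2 (hc j)
    exact this
  · change ev Q (1 ⊗ₜ[K] y v) = ev Q (1 ⊗ₜ[K] c (p v)) *
      Ideal.residueFieldAlgEquiv P.asIdeal Q.asIdeal e hPQ (ev P (1 ⊗ₜ[K] x v))
    rw [h v]
    have h1 : Ideal.residueFieldAlgEquiv P.asIdeal Q.asIdeal e hPQ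
        (ev P (1 ⊗ₜ[K] x v)) = ev Q (e (1 ⊗ₜ[K] x v)) :=
      Ideal.ResidueField.map_algebraMap P.asIdeal Q.asIdeal e.toRingEquiv.toRingHom hPQ _
    rw [h1, ← map_mul]
    congr 1
    have h2 : e (1 ⊗ₜ[K] x v) = 1 ⊗ₜ[K] σ (x v) := by
      change (Algebra.TensorProduct.congr AlgEquiv.refl σ) (1 ⊗ₜ[K] x v) = _
      rw [Algebra.TensorProduct.congr_apply, Algebra.TensorProduct.map_tmul]
      rfl
    rw [h2, Algebra.TensorProduct.tmul_mul_tmul, one_mul]

end congr

section finite

variable {K K' L : Type u} [Field K] [Field K'] [Field L] [Algebra K K'] [Algebra K L]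
  [FiniteDimensional K L]

theorem isArtinian_tensor : IsArtinianRing (K' ⊗[K] L) :=
  IsArtinianRing.of_finite K' (K' ⊗[K] L)

theorem finite_spec : Finite (PrimeSpectrum (K' ⊗[K] L)) := by
  have := isArtinian_tensor (K := K) (K' := K') (L := L)
  infer_instance

theorem finite_residueField (P : PrimeSpectrum (K' ⊗[K] L)) :
    FiniteDimensional K' P.asIdeal.ResidueField := by
  have := isArtinian_tensor (K := K) (K' := K') (L := L)
  have : P.asIdeal.IsMaximal := inferInstance
  exact Module.Finite.trans (K' ⊗[K] L) _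

end finite

section bc

variable {K : Type u} [Field K] {V ι R : Type} [Finite V] {p : V → ι}

/-- The base change of a point which generates its field. -/
theorem bcZ_ptCycle (X : MVar K p R) (K' : Type u) [Field K'] [Algebra K K'] {L : Type u}
    [Field L] [Algebra K L] [FiniteDimensional K L] (x : V → L) (hx : X.IsPt x)
    (htop : coordField K p x = ⊤) : bcZ X K' (ptCycle X x hx) = bcPt X K' x hx := by
  have halg : Algebra.IsAlgebraic K L := inferInstance
  rw [ptCycle, dif_pos halg, htop, IntermediateField.finrank_top, bcZ, linExt_single,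
    Nat.cast_one, one_smul]
  set P := closedPt X x hx with hP
  obtain ⟨τ, c, hc, hτ⟩ := exists_emb X x hx P.out (Quotient.out_eq P).symm
  have hs : Function.Surjective τ := by
    have h1 := coordField_image (p := p) τ c hc hτ
    rw [htop, coordField_nrm, ← AlgHom.fieldRange_eq_map] at h1
    exact AlgHom.fieldRange_eq_top.1 h1.symm
  exact bcPt_congr X K' (AlgEquiv.ofBijective τ ⟨τ.toRingHom.injective, hs⟩) c hc _ _ hτ

end bc

section push

variable {K : Type u} [Field K] {V ι R : Type} {p : V → ι} {n r : ℕ}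
  {X : MVar K (addBlock n p) (Fin r ⊕ R)} {B : MVar K p R}

/-- Base change commutes with the push-forward of points. -/
theorem pushZ_bcPt (h : X.IsOver B) (K' : Type u) [Field K'] [Algebra K K'] {L : Type u}
    [Field L] [Algebra K L] [FiniteDimensional K L] (x : Fin (n + 1) ⊕ V → L) (hx : X.IsPt x) :
    pushZ (h.bc K') (bcPt X K' x hx) = bcPt B K' (fun v => x (Sum.inr v)) (h.isPt hx) := by
  unfold bcPt specCycle
  have := finite_spec (K := K) (K' := K') (L := L)
  rw [AddMonoidHom.map_finsum]
  · refine finsum_congr fun P => ?_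
    have := finite_residueField P
    rw [map_nsmul]
    congr 1
    exact pushZ_ptCycle (h.bc K') _ _
  · exact Set.toFinite _

variable [Finite V]

theorem pushZ_bcZ_secZ (h : Low X B) (hK : C2 K) (K' : Type u) [Field K'] [Algebra K K']
    (c : ClosedPoint B →₀ ℤ) :
    pushZ (h.isOver.bc K') (bcZ X K' (secZ h hK c)) = bcZ B K' c := by
  induction c using Finsupp.induction_linear with
  | zero => simp only [map_zero]
  | add f g hf hg => rw [map_add, map_add, map_add, hf, hg, map_add]
  | single b a =>
    have h1 : Finsupp.single b a = a • Finsupp.single b (1 : ℤ) := by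
      rw [Finsupp.smul_single, smul_eq_mul, mul_one]
    have hfd := coordField_finite (p := p) b.out.1
    have htop : coordField K (addBlock n p)
        (Sum.elim (exists_sec h hK b.out).choose (nrm b.out)) = ⊤ := by
      rw [eq_top_iff, ← coordField_nrm b.out]
      exact coordField_le (Sum.elim (exists_sec h hK b.out).choose (nrm b.out))
    rw [h1, map_zsmul, map_zsmul, map_zsmul, map_zsmul, secZ_single, secPt,
      bcZ_ptCycle X K' _ _ htop, pushZ_bcPt h.isOver K', ← single_out b,
      bcZ_ptCycle B K' _ _ (coordField_nrm b.out)]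
    rfl

end push

end ZF
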