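import Pool.Agent.Helper15.ZF.Defs

/-!
# Base change of zero-cycles

* `specCycle`: the push-forward to `X` of the cycle of `Spec A`, for a finite `K`-algebra `A` and a
  morphism from `Spec A` to `X`;
* `bcPt`: the base change to `K'` of the point `Spec L` with its morphism to `X`;
* `bcZ`: the base change of zero-cycles.
-/

set_option autoImplicit false

open MvPolynomial ZC TensorProduct

namespace ZF

universe u

section spec

/-- The length of the local ring of a point of `Spec A`. -/
noncomputable def mult {A : Type u} [CommRing A] (P : PrimeSpectrum A) : ℕ :=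
  (Module.length (Localization.AtPrime P.asIdeal) (Localization.AtPrime P.asIdeal)).toNat

/-- The map from `A` to the residue field of a point of `Spec A`. -/
noncomputable def ev {A : Type u} [CommRing A] (P : PrimeSpectrum A) :
    A →+* P.asIdeal.ResidueField :=
  algebraMap A P.asIdeal.ResidueField

/-- The `x v` are the coordinates of a morphism from `Spec A` to `X`. -/
def SpecPt {K : Type u} [Field K] {V ι R : Type} {p : V → ι} (X : MVar K p R)
    (A : Type u) [CommRing A] [Algebra K A] (x : V → A) : Prop :=
  ∀ P : PrimeSpectrum A, X.IsPt fun v => ev P (x v)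

/-- The push-forward to `X` of the cycle of `Spec A`, for a finite `K`-algebra `A` and the morphism
from `Spec A` to `X` with coordinates `x`: the sum over the points of `Spec A` of the length of the
local ring times the push-forward of the point. -/
noncomputable def specCycle {K : Type u} [Field K] {V ι R : Type} {p : V → ι} (X : MVar K p R)
    (A : Type u) [CommRing A] [Algebra K A] (x : V → A) (hx : SpecPt X A x) :
    ClosedPoint X →₀ ℤ :=
  ∑ᶠ P : PrimeSpectrum A, mult P • ptCycle X (fun v => ev P (x v)) (hx P)

end spec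

section bc

variable {K : Type u} [Field K] {V ι R : Type} {p : V → ι} (X : MVar K p R)
  (K' : Type u) [Field K'] [Algebra K K']

theorem isPt_bc {L M : Type u} [Field L] [Field M]
    [Algebra K L] [Algebra K' M] (ψ : L →+* M)
    (h : ∀ a, ψ (algebraMap K L a) = algebraMap K' M (algebraMap K K' a)) {x : V → L}
    (hx : X.IsPt x) : (X.bc K').IsPt fun v => ψ (x v) := by
  refine ⟨fun j => ?_, fun i => ?_⟩
  · obtain ⟨v, hv, h0⟩ := hx.1 j
    exact ⟨v, hv, (_root_.map_ne_zero ψ).2 h0⟩
  · have h1 := congrArg ψ (hx.2 i)
    rw [map_zero, aeval_def, hom_eval₂] at h1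
    change aeval (fun v => ψ (x v)) (MvPolynomial.map (algebraMap K K') (X.form i)) = 0
    rw [aeval_def, eval₂_map]
    have h2 : (algebraMap K' M).comp (algebraMap K K') = ψ.comp (algebraMap K L) := by
      ext a
      exact (h a).symm
    rw [h2]
    exact h1

theorem bc_aux {K' L : Type u} [Field K'] [Field L] [Algebra K K'] [Algebra K L]
    (P : PrimeSpectrum (K' ⊗[K] L)) (a : K) :
    ev P (1 ⊗ₜ[K] algebraMap K L a) =
      algebraMap K' P.asIdeal.ResidueField (algebraMap K K' a) := by
  have h1 : (1 : K') ⊗ₜ[K] algebraMap K L a = algebraMap K K' a ⊗ₜ[K] (1 : L) := by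
    rw [Algebra.algebraMap_eq_smul_one, Algebra.algebraMap_eq_smul_one, TensorProduct.smul_tmul]
  rw [h1, IsScalarTower.algebraMap_apply K' (K' ⊗[K] L) P.asIdeal.ResidueField]
  rfl

theorem isPt_tensor {L : Type u} [Field L] [Algebra K L] {x : V → L} (hx : X.IsPt x) :
    SpecPt (X.bc K') (K' ⊗[K] L) fun v => 1 ⊗ₜ[K] x v :=
  fun P => isPt_bc X K' ((ev P).comp
    (Algebra.TensorProduct.includeRight : L →ₐ[K] K' ⊗[K] L).toRingHom)
    (fun a => bc_aux P a) hx

/-- The base change to `K'` of the point `Spec L` with its morphism `x` to `X`: the push-forward of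
the cycle of `Spec (K' ⊗ L)`. -/
noncomputable def bcPt {L : Type u} [Field L] [Algebra K L] (x : V → L) (hx : X.IsPt x) :
    ClosedPoint (X.bc K') →₀ ℤ :=
  specCycle (X.bc K') (K' ⊗[K] L) (fun v => 1 ⊗ₜ[K] x v) (isPt_tensor X K' hx)

/-- The base change of zero-cycles. -/
noncomputable def bcZ : (ClosedPoint X →₀ ℤ) →+ (ClosedPoint (X.bc K') →₀ ℤ) :=
  linExt fun P => bcPt X K' (nrm P.out) (nrm_isPt P.out)

end bc

end ZF
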