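import Pool.Agent.Helper15.ZF.Defs
import Pool.Agent.Helper72.ZC.Line

/-! # Cycles of points -/

set_option autoImplicit false

open MvPolynomial ZC

namespace ZF

universe u

section congr

variable {K : Type u} [Field K] {V ι R : Type} {p : V → ι}

theorem closedPt_eq_mk (X : MVar K p R) {L : Type*} [Field L] [Algebra K L]
    [Algebra.IsAlgebraic K L] {x : V → L} (hx : X.IsPt x)
    (f : L →ₐ[K] AlgebraicClosure K) (y : GPt X) (c : ι → AlgebraicClosure K) (hc : ∀ j, c j ≠ 0)
    (h : ∀ v, y.1 v = c (p v) * f (x v)) : closedPt X x hx = Quotient.mk (gSetoid X) y := by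
  obtain ⟨s, hs⟩ := exists_autom (IsAlgClosed.lift : L →ₐ[K] AlgebraicClosure K) f
  refine Quotient.sound ⟨s, c, hc, fun v => ?_⟩
  rw [h v, hs]

/-- The closed point does not change under embeddings of the field and multiplication of the
coordinates in each projective space by a constant. -/
theorem closedPt_congr (X : MVar K p R) {L L' : Type*} [Field L] [Algebra K L] [Field L']
    [Algebra K L'] [Algebra.IsAlgebraic K L] [Algebra.IsAlgebraic K L'] (σ : L →ₐ[K] L')
    (c : ι → L') (hc : ∀ j, c j ≠ 0) {x : V → L}
    {y : V → L'} (hx : X.IsPt x) (hy : X.IsPt y) (h : ∀ v, y v = c (p v) * σ (x v)) :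
    closedPt X x hx = closedPt X y hy := by
  refine closedPt_eq_mk X hx
    ((IsAlgClosed.lift : L' →ₐ[K] AlgebraicClosure K).comp σ) _
    (fun j => (IsAlgClosed.lift : L' →ₐ[K] AlgebraicClosure K) (c j)) (fun j => ?_) (fun v => ?_)
  · exact (_root_.map_ne_zero _).2 (hc j)
  · change (IsAlgClosed.lift : L' →ₐ[K] AlgebraicClosure K) (y v) = _
    rw [h v, map_mul]
    rfl

theorem finrank_coordField {L L' : Type*} [Field L] [Algebra K L] [Field L'] [Algebra K L']
    (σ : L ≃ₐ[K] L') (c : ι → L') (hc : ∀ j, c j ≠ 0) {x : V → L} {y : V → L'}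
    (h : ∀ v, y v = c (p v) * σ (x v)) :
    Module.finrank (coordField K p x) L = Module.finrank (coordField K p y) L' := by
  rw [coordField_image (σ : L →ₐ[K] L') c hc h]
  refine Algebra.finrank_eq_of_equiv_equiv
    (IntermediateField.intermediateFieldMap σ (coordField K p x)).toRingEquiv σ.toRingEquiv ?_
  rfl

/-- The point of a curve with residue field `L` gives the same cycle for isomorphic `L` and for
proportional coordinates. -/
theorem ptCycle_congr (X : MVar K p R) {L L' : Type*} [Field L] [Algebra K L] [Field L']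
    [Algebra K L'] (σ : L ≃ₐ[K] L') (c : ι → L') (hc : ∀ j, c j ≠ 0) {x : V → L}
    {y : V → L'} (hx : X.IsPt x) (hy : X.IsPt y) (h : ∀ v, y v = c (p v) * σ (x v)) :
    ptCycle X x hx = ptCycle X y hy := by
  classical
  by_cases ha : Algebra.IsAlgebraic K L
  · have ha' : Algebra.IsAlgebraic K L' := σ.isAlgebraic_iff.1 ha
    rw [ptCycle, ptCycle, dif_pos ha, dif_pos ha', finrank_coordField σ c hc h,
      closedPt_congr X (σ : L →ₐ[K] L') c hc hx hy h]
  · have ha' : ¬ Algebra.IsAlgebraic K L' := fun h' => ha (σ.isAlgebraic_iff.2 h')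
    rw [ptCycle, ptCycle, dif_neg ha, dif_neg ha']

theorem ptCycle_of_eq (X : MVar K p R) {L : Type*} [Field L] [Algebra K L] {x y : V → L}
    (hx : X.IsPt x) (hy : X.IsPt y) (h : x = y) : ptCycle X x hx = ptCycle X y hy := by
  subst h; rfl

/-- The push-forward along `Spec L' → Spec L`. -/
theorem ptCycle_tower (X : MVar K p R) {L L' : Type*} [Field L] [Algebra K L] [Field L']
    [Algebra K L'] [FiniteDimensional K L] [FiniteDimensional K L'] (σ : L →ₐ[K] L')
    {x : V → L} (hx : X.IsPt x) (hy : X.IsPt fun v => σ (x v)) :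
    ptCycle X (fun v => σ (x v)) hy =
      (letI := σ.toRingHom.toAlgebra; Module.finrank L L' : ℤ) • ptCycle X x hx := by
  classical
  let _ := σ.toRingHom.toAlgebra
  have : IsScalarTower K L L' := IsScalarTower.of_algebraMap_eq fun a => (σ.commutes a).symm
  have : FiniteDimensional L L' := FiniteDimensional.right K L L'
  have ha : Algebra.IsAlgebraic K L := inferInstance
  have ha' : Algebra.IsAlgebraic K L' := inferInstance
  rw [ptCycle, ptCycle, dif_pos ha, dif_pos ha',
    closedPt_congr X σ (fun _ => 1) (fun _ => one_ne_zero) hx hy (fun v => by rw [one_mul]),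
    Finsupp.smul_single, smul_eq_mul]
  congr 1
  have h1 : coordField K p (fun v => σ (x v)) = (coordField K p x).map σ :=
    coordField_image σ (fun _ => 1) (fun _ => one_ne_zero) (fun v => by rw [one_mul])
  have h2 := Module.finrank_mul_finrank K (coordField K p fun v => σ (x v)) L'
  have h3 := Module.finrank_mul_finrank K (coordField K p x) L
  have h4 := Module.finrank_mul_finrank K L L'
  have h5 : Module.finrank K (coordField K p fun v => σ (x v)) =
      Module.finrank K (coordField K p x) := by
    rw [h1]
    exact (((coordField K p x).equivMap σ).toLinearEquiv.finrank_eq).symm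
  have h6 : 0 < Module.finrank K (coordField K p x) := Module.finrank_pos
  have h7 : Module.finrank (coordField K p fun v => σ (x v)) L' =
      Module.finrank L L' * Module.finrank (coordField K p x) L := by
    apply Nat.eq_of_mul_eq_mul_left h6
    rw [← h5, h2, ← h4, ← h3, h5]
    ring
  rw [h7]
  push_cast
  rfl

end congr

section gen

variable {K : Type u} [Field K] {V ι R : Type} {p : V → ι}

theorem coordField_finite [Finite V] (y : V → AlgebraicClosure K) :
    FiniteDimensional K (coordField K p y) := by
  rw [coordField]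
  have hfin : Finite {z | ∃ a b, p a = p b ∧ z = y a / y b} := by
    refine Set.Finite.subset (Set.finite_range fun q : V × V => y q.1 / y q.2) ?_
    rintro z ⟨a, b, -, rfl⟩
    exact ⟨(a, b), rfl⟩
  exact IntermediateField.finiteDimensional_adjoin fun z _ => Algebra.IsIntegral.isIntegral z

/-- The geometric point is the point over its residue field with scaled coordinates. -/
theorem nrm_val {X : MVar K p R} (y : GPt X) : ∃ c : ι → AlgebraicClosure K, (∀ j, c j ≠ 0) ∧
    ∀ v, y.1 v = c (p v) * (coordField K p y.1).val (nrm y v) := by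
  refine ⟨fun j => y.1 (y.2.1 j).choose, fun j => (y.2.1 j).choose_spec.2, fun v => ?_⟩
  change y.1 v = _ * (y.1 v / y.1 _)
  rw [mul_div_cancel₀ _ (y.2.1 (p v)).choose_spec.2]

theorem coordField_nrm {X : MVar K p R} (y : GPt X) : coordField K p (nrm y) = ⊤ := by
  obtain ⟨c, hc, h⟩ := nrm_val y
  apply IntermediateField.map_injective (coordField K p y.1).val
  rw [← AlgHom.fieldRange_eq_map, IntermediateField.fieldRange_val]
  exact (coordField_image (coordField K p y.1).val c hc h).symm

/-- A closed point is the push-forward of the spectrum of its residue field. -/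
theorem single_eq_ptCycle [Finite V] (X : MVar K p R) (y : GPt X) :
    Finsupp.single (Quotient.mk (gSetoid X) y) 1 = ptCycle X (nrm y) (nrm_isPt y) := by
  have hfd := coordField_finite (p := p) y.1
  have halg : Algebra.IsAlgebraic K (coordField K p y.1) := inferInstance
  obtain ⟨c, hc, h⟩ := nrm_val y
  rw [ptCycle, dif_pos halg, coordField_nrm, IntermediateField.finrank_top,
    closedPt_eq_mk X (nrm_isPt y) (coordField K p y.1).val y c hc h]
  rfl

end gen

end ZF
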