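import Pool.Agent.Helper72.ZC.Defs

/-!
# Zero-cycles on multiprojective varieties and families of projective varieties

* `MVar K p R`: a variety `X` in a product of projective spaces over the field `K`, defined by
  forms;
* `ClosedPoint X`: its closed points, i.e. the orbits of `Aut (K̄ / K)` on `X (K̄)`;
* `CH0 X`: the Chow group of zero-cycles of `X`: zero-cycles modulo the push-forwards of the
  divisors of functions on normal projective curves with a morphism to `X`;
* `IsOver X B`: `X` in `ℙⁿ × B` is given by the forms of `B` and further forms;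
* `CH0.push`: the push-forward along the projection of `X` to `B`.
-/

set_option autoImplicit false

open MvPolynomial ZC

namespace ZF

universe u

/-- The homomorphism on the free abelian group with basis `α` which extends `f`. -/
noncomputable def linExt {α G : Type*} [AddCommGroup G] (f : α → G) : (α →₀ ℤ) →+ G :=
  Finsupp.liftAddHom fun a => zmultiplesHom G (f a)

theorem linExt_single {α G : Type*} [AddCommGroup G] (f : α → G) (a : α) (m : ℤ) :
    linExt f (Finsupp.single a m) = m • f a := by
  rw [linExt, Finsupp.liftAddHom_apply_single, zmultiplesHom_apply]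

section varieties

variable {K : Type u} [Field K] {V ι R : Type} {p : V → ι}

/-- A variety in a product of projective spaces, given by forms over `K`.  The set of all variables
is `V`, the projective spaces are numbered by `ι`, and `p v` is the number of the projective space
of which `v` is a coordinate. -/
structure MVar (K : Type u) [Field K] {V ι : Type} (p : V → ι) (R : Type) where
  /-- the forms -/
  form : R → MvPolynomial V K
  /-- their multidegrees -/
  deg : R → ι →₀ ℕ
  hom : ∀ i, ∀ m ∈ (form i).support, m.mapDomain p = deg i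

/-- Base change to an extension `L` of `K`. -/
noncomputable def MVar.bc (X : MVar K p R) (L : Type u) [Field L] [Algebra K L] :
    MVar L p R where
  form i := MvPolynomial.map (algebraMap K L) (X.form i)
  deg := X.deg
  hom i m hm := X.hom i m (support_map_subset _ _ hm)

/-- Every projective space has a coordinate which is not zero. -/
def Nonvan (p : V → ι) {L : Type*} [Field L] (x : V → L) : Prop :=
  ∀ j, ∃ v, p v = j ∧ x v ≠ 0

/-- `x` is a vector of multihomogeneous coordinates of a point of `X (L)`. -/
def MVar.IsPt (X : MVar K p R) {L : Type*} [Field L] [Algebra K L] (x : V → L) : Prop :=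
  Nonvan p x ∧ ∀ i, aeval x (X.form i) = 0

/-- The points of `X (K̄)` with multihomogeneous coordinates. -/
def GPt (X : MVar K p R) : Type u := {x : V → AlgebraicClosure K // X.IsPt x}

/-- Two geometric points lie over the same closed point of `X`. -/
instance gSetoid (X : MVar K p R) : Setoid (GPt X) where
  r x y := ∃ (s : AlgebraicClosure K ≃ₐ[K] AlgebraicClosure K) (c : ι → AlgebraicClosure K),
    (∀ j, c j ≠ 0) ∧ ∀ v, y.1 v = c (p v) * s (x.1 v)
  iseqv := by
    constructor
    · exact fun x => ⟨AlgEquiv.refl, fun _ => 1, fun _ => one_ne_zero, fun v => by simp⟩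
    · rintro x y ⟨s, c, hc, h⟩
      refine ⟨s.symm, fun j => s.symm (c j)⁻¹, fun j => by simpa using hc j, fun v => ?_⟩
      rw [h v, ← map_mul, inv_mul_cancel_left₀ (hc _), AlgEquiv.symm_apply_apply]
    · rintro x y z ⟨s, c, hc, h⟩ ⟨s', c', hc', h'⟩
      refine ⟨s.trans s', fun j => c' j * s' (c j),
        fun j => mul_ne_zero (hc' j) (by simpa using hc j), fun v => ?_⟩
      rw [h' v, h v, map_mul, AlgEquiv.trans_apply, mul_assoc]

/-- The closed points of `X`. -/
def ClosedPoint (X : MVar K p R) : Type u := Quotient (gSetoid X)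

/-- The residue field of the point with coordinates `x`: the field generated over `K` by the
quotients of the coordinates in the same projective space. -/
def coordField (K : Type u) [Field K] {V ι : Type} (p : V → ι) {L : Type*} [Field L]
    [Algebra K L] (x : V → L) : IntermediateField K L :=
  IntermediateField.adjoin K {z | ∃ a b, p a = p b ∧ z = x a / x b}

theorem coordField_image {L M : Type*} [Field L] [Algebra K L] [Field M] [Algebra K M]
    (s : L →ₐ[K] M) (c : ι → M) (hc : ∀ j, c j ≠ 0) {x : V → L} {y : V → M}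
    (h : ∀ v, y v = c (p v) * s (x v)) : coordField K p y = (coordField K p x).map s := by
  rw [coordField, coordField, IntermediateField.adjoin_map]
  congr 1
  ext z
  constructor
  · rintro ⟨a, b, hab, rfl⟩
    refine ⟨x a / x b, ⟨a, b, hab, rfl⟩, ?_⟩
    rw [h, h, hab, mul_div_mul_left _ _ (hc _), map_div₀]
  · rintro ⟨_, ⟨a, b, hab, rfl⟩, rfl⟩
    refine ⟨a, b, hab, ?_⟩
    rw [h, h, hab, mul_div_mul_left _ _ (hc _), map_div₀]

theorem isPt_comp (X : MVar K p R) {L M : Type*} [Field L] [Algebra K L] [Field M] [Algebra K M]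
    (s : L →ₐ[K] M) {x : V → L} (hx : X.IsPt x) : X.IsPt fun v => s (x v) := by
  refine ⟨fun j => ?_, fun i => ?_⟩
  · obtain ⟨v, hv, h⟩ := hx.1 j
    exact ⟨v, hv, (map_ne_zero s).2 h⟩
  · have h1 := hx.2 i
    have h2 : aeval (fun v => s (x v)) (X.form i) = s (aeval x (X.form i)) :=
      (comp_aeval_apply x s (X.form i)).symm
    rw [h2, h1, map_zero]

/-- The closed point of `X` under a point of `X` over an algebraic extension `L` of `K`. -/
noncomputable def closedPt (X : MVar K p R) {L : Type*} [Field L]
    [Algebra K L] [Algebra.IsAlgebraic K L] (x : V → L) (hx : X.IsPt x) : ClosedPoint X :=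
  Quotient.mk (gSetoid X) ⟨fun v => (IsAlgClosed.lift : L →ₐ[K] AlgebraicClosure K) (x v),
    isPt_comp X _ hx⟩

/-- The push-forward to `X` of the point `Spec L`, `L / K` finite: the closed point `P` under
`x ∈ X (L)` with the multiplicity `[L : K(P)]`. -/
noncomputable def ptCycle (X : MVar K p R) {L : Type*} [Field L] [Algebra K L]
    (x : V → L) (hx : X.IsPt x) : ClosedPoint X →₀ ℤ :=
  open Classical in
  if _ : Algebra.IsAlgebraic K L then
    Finsupp.single (closedPt X x hx) (Module.finrank (coordField K p x) L : ℤ)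
  else 0

end varieties

section reduction

variable {K E : Type u} [Field K] [Field E] [Algebra K E] {V ι R : Type} {p : V → ι}

theorem exists_max [Finite V] (w : Place K E) (p : V → ι) (x : V → E) (hx : Nonvan p x) (j : ι) :
    ∃ u, p u = j ∧ x u ≠ 0 ∧ ∀ v, p v = j → x v / x u ∈ w.A := by
  obtain ⟨v₀, hv₀, h0⟩ := hx j
  obtain ⟨u, hu, hmax⟩ := Set.exists_max_image {v | p v = j} (fun v => w.A.valuation (x v))
    (Set.toFinite _) ⟨v₀, hv₀⟩
  have hu0 : x u ≠ 0 := by
    intro h
    apply h0
    have h1 := hmax v₀ hv₀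
    rw [h, map_zero, nonpos_iff_eq_zero, Valuation.zero_iff] at h1
    exact h1
  refine ⟨u, hu, hu0, fun v hv => ?_⟩
  rw [← w.A.valuation_le_one_iff, map_div₀]
  have h1 : 0 < w.A.valuation (x u) := zero_lt_iff.2 ((Valuation.ne_zero_iff _).2 hu0)
  rw [div_le_iff₀ h1, one_mul]
  exact hmax v hv

/-- The value at the place `w` of the point with coordinates `x`: the coordinates in each projective
space are divided by one of largest absolute value and reduced to the residue field. -/
noncomputable def red [Finite V] (w : Place K E) (p : V → ι) (x : V → E) (hx : Nonvan p x)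
    (v : V) : w.res :=
  IsLocalRing.residue w.A ⟨x v / x (exists_max w p x hx (p v)).choose,
    (exists_max w p x hx (p v)).choose_spec.2.2 v rfl⟩

theorem aeval_scale {K L : Type*} [Field K] [Field L] [Algebra K L] {f : MvPolynomial V K}
    {e : ι →₀ ℕ} (hf : ∀ m ∈ f.support, m.mapDomain p = e) (c : ι → L) (x : V → L) :
    aeval (fun v => c (p v) * x v) f = (e.prod fun j a => c j ^ a) * aeval x f := by
  rw [aeval_def, aeval_def, eval₂_eq, eval₂_eq, Finset.mul_sum]
  refine Finset.sum_congr rfl fun m hm => ?_
  have h1 : (e.prod fun j a => c j ^ a) = ∏ v ∈ m.support, c (p v) ^ m v := by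
    rw [← hf m hm, Finsupp.prod_mapDomain_index (fun _ => pow_zero _) (fun _ _ _ => pow_add _ _ _)]
    rfl
  have h2 : ∏ v ∈ m.support, (c (p v) * x v) ^ m v =
      (e.prod fun j a => c j ^ a) * ∏ v ∈ m.support, x v ^ m v := by
    rw [h1, ← Finset.prod_mul_distrib]
    exact Finset.prod_congr rfl fun v _ => mul_pow _ _ _
  rw [h2]
  ring

theorem isPt_scale (X : MVar K p R) {L : Type*} [Field L] [Algebra K L] (c : ι → L)
    (hc : ∀ j, c j ≠ 0) {x y : V → L} (hx : X.IsPt x) (h : ∀ v, y v = c (p v) * x v) :
    X.IsPt y := by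
  have hy : y = fun v => c (p v) * x v := funext h
  refine ⟨fun j => ?_, fun i => ?_⟩
  · obtain ⟨v, hv, h0⟩ := hx.1 j
    exact ⟨v, hv, by rw [h v]; exact mul_ne_zero (hc _) h0⟩
  · rw [hy, aeval_scale (X.hom i), hx.2 i, mul_zero]

theorem red_isPt [Finite V] (X : MVar K p R) (w : Place K E) (x : V → E) (hx : X.IsPt x) :
    X.IsPt (red w p x hx.1) := by
  set u : ι → V := fun j => (exists_max w p x hx.1 j).choose with hu
  have hu1 : ∀ j, p (u j) = j := fun j => (exists_max w p x hx.1 j).choose_spec.1
  have hu2 : ∀ j, x (u j) ≠ 0 := fun j => (exists_max w p x hx.1 j).choose_spec.2.1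
  have hu3 : ∀ v, x v / x (u (p v)) ∈ w.A := fun v =>
    (exists_max w p x hx.1 (p v)).choose_spec.2.2 v rfl
  refine ⟨fun j => ⟨u j, hu1 j, fun h => ?_⟩, fun i => ?_⟩
  · have h1 : IsLocalRing.residue w.A ⟨x (u j) / x (u (p (u j))), hu3 (u j)⟩ = 0 := h
    rw [IsLocalRing.residue_eq_zero_iff, IsLocalRing.mem_maximalIdeal, mem_nonunits_iff] at h1
    apply h1
    have : (⟨x (u j) / x (u (p (u j))), hu3 (u j)⟩ : w.A) = 1 := Subtype.ext (by
      change x (u j) / x (u (p (u j))) = 1
      rw [hu1 j]
      exact div_self (hu2 j))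
    rw [this]
    exact isUnit_one
  · have h1 : aeval (fun v => (⟨x v / x (u (p v)), hu3 v⟩ : w.A)) (X.form i) = 0 := by
      have hinj : Function.Injective (algebraMap w.A E) := Subtype.val_injective
      apply hinj
      rw [map_zero]
      have h2 : algebraMap w.A E (aeval (fun v => (⟨x v / x (u (p v)), hu3 v⟩ : w.A))
          (X.form i)) = aeval (fun v => x v / x (u (p v))) (X.form i) := by
        have : IsScalarTower K w.A E := IsScalarTower.of_algebraMap_eq fun a => rfl
        rw [← MvPolynomial.aeval_algebraMap_apply]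
        rfl
      rw [h2]
      have h3 : (fun v => x v / x (u (p v))) = fun v => (fun j => (x (u j))⁻¹) (p v) * x v := by
        funext v; rw [div_eq_inv_mul]
      rw [h3, aeval_scale (X.hom i) (fun j => (x (u j))⁻¹) x, hx.2 i, mul_zero]
    have h5 : aeval (red w p x hx.1) (X.form i) =
        algebraMap w.A w.res (aeval (fun v => (⟨x v / x (u (p v)), hu3 v⟩ : w.A))
          (X.form i)) := by
      rw [← MvPolynomial.aeval_algebraMap_apply]
      rfl
    rw [h5, h1, map_zero]

end reduction

section nrm

variable {K : Type u} [Field K] {V ι R : Type} {p : V → ι}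

/-- The coordinates of a geometric point divided by nonzero ones. -/
noncomputable def nrm {X : MVar K p R} (y : GPt X) (v : V) : coordField K p y.1 :=
  ⟨y.1 v / y.1 (y.2.1 (p v)).choose, IntermediateField.subset_adjoin K _
    ⟨v, _, (y.2.1 (p v)).choose_spec.1.symm, rfl⟩⟩

theorem nrm_isPt {X : MVar K p R} (y : GPt X) : X.IsPt (nrm y) := by
  set u : ι → V := fun j => (y.2.1 j).choose with hu
  have hu1 : ∀ j, p (u j) = j := fun j => (y.2.1 j).choose_spec.1
  have hu2 : ∀ j, y.1 (u j) ≠ 0 := fun j => (y.2.1 j).choose_spec.2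
  refine ⟨fun j => ⟨u j, hu1 j, fun h => ?_⟩, fun i => ?_⟩
  · have h1 : y.1 (u j) / y.1 (u (p (u j))) = 0 := congrArg Subtype.val h
    rw [hu1, div_self (hu2 j)] at h1
    exact one_ne_zero h1
  · apply (algebraMap (coordField K p y.1) (AlgebraicClosure K)).injective
    rw [map_zero, ← MvPolynomial.aeval_algebraMap_apply]
    have : (fun v => algebraMap (coordField K p y.1) (AlgebraicClosure K) (nrm y v)) =
        fun v => (fun j => (y.1 (u j))⁻¹) (p v) * y.1 v := by
      funext v
      change y.1 v / y.1 (u (p v)) = _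
      rw [div_eq_inv_mul]
    change aeval (fun v => algebraMap (coordField K p y.1) (AlgebraicClosure K) (nrm y v))
      (X.form i) = 0
    rw [this, aeval_scale (X.hom i) (fun j => (y.1 (u j))⁻¹) y.1, y.2.2 i, mul_zero]

end nrm

section chow

variable {K : Type u} [Field K] {V ι R : Type} [Finite V] {p : V → ι}

/-- The push-forward to `X` of the divisor of the function `g` on the normal projective curve with
function field `E`, under the morphism to `X` given by the point `x ∈ X (E)`. -/
noncomputable def curveCycle (X : MVar K p R) {E : Type u} [Field E] [Algebra K E]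
    (x : V → E) (hx : X.IsPt x) (g : E) : ClosedPoint X →₀ ℤ :=
  ∑ᶠ w : Place K E, w.ord g • ptCycle X (red w p x hx.1) (red_isPt X w x hx)

/-- The zero-cycles rationally equivalent to zero. -/
noncomputable def ratEquiv (X : MVar K p R) : AddSubgroup (ClosedPoint X →₀ ℤ) :=
  AddSubgroup.closure {c | ∃ (E : Type u) (_ : Field E) (_ : Algebra K E),
    IsCurveField K E ∧ ∃ (x : V → E) (hx : X.IsPt x) (g : E), g ≠ 0 ∧
      c = curveCycle X x hx g}

/-- The Chow group of zero-cycles of `X`. -/
def CH0 (X : MVar K p R) : Type u := (ClosedPoint X →₀ ℤ) ⧸ ratEquiv X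

noncomputable instance (X : MVar K p R) : AddCommGroup (CH0 X) :=
  (inferInstance : AddCommGroup ((ClosedPoint X →₀ ℤ) ⧸ ratEquiv X))

/-- The class of a zero-cycle. -/
noncomputable def CH0.mk (X : MVar K p R) : (ClosedPoint X →₀ ℤ) →+ CH0 X :=
  QuotientAddGroup.mk' (ratEquiv X)

end chow

section family

variable {K : Type u} [Field K] {V ι R : Type} {p : V → ι} {n r : ℕ}

/-- The variables of `ℙⁿ` and those of `B`. -/
def addBlock (n : ℕ) (p : V → ι) : Fin (n + 1) ⊕ V → Option ι :=
  Sum.elim (fun _ => none) (fun v => some (p v))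

/-- `X` is the variety in `ℙⁿ × B` given by its first `r` forms. -/
def MVar.IsOver (X : MVar K (addBlock n p) (Fin r ⊕ R)) (B : MVar K p R) : Prop :=
  ∀ i, X.form (Sum.inr i) = rename Sum.inr (B.form i)

theorem MVar.IsOver.bc {X : MVar K (addBlock n p) (Fin r ⊕ R)} {B : MVar K p R}
    (h : X.IsOver B) (L : Type u) [Field L] [Algebra K L] : (X.bc L).IsOver (B.bc L) := by
  intro i
  change MvPolynomial.map (algebraMap K L) (X.form (Sum.inr i)) =
    rename Sum.inr (MvPolynomial.map (algebraMap K L) (B.form i))
  rw [h i, map_rename]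

theorem MVar.IsOver.isPt {X : MVar K (addBlock n p) (Fin r ⊕ R)} {B : MVar K p R}
    (h : X.IsOver B) {L : Type*} [Field L] [Algebra K L] {x : Fin (n + 1) ⊕ V → L}
    (hx : X.IsPt x) : B.IsPt fun v => x (Sum.inr v) := by
  refine ⟨fun j => ?_, fun i => ?_⟩
  · obtain ⟨v, hv, h0⟩ := hx.1 (some j)
    rcases v with v | v
    · exact absurd hv (by simp [addBlock])
    · exact ⟨v, Option.some_injective _ hv, h0⟩
  · have h1 := hx.2 (Sum.inr i)
    rw [h i, aeval_rename] at h1
    exact h1

/-- The push-forward of the closed point `P` of `X` under the geometric point `x`: its image `Q`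
in `B` with the multiplicity `[K(P) : K(Q)]`. -/
noncomputable def pushGPt {X : MVar K (addBlock n p) (Fin r ⊕ R)} {B : MVar K p R}
    (h : X.IsOver B) (x : GPt X) : ClosedPoint B →₀ ℤ :=
  Finsupp.single (Quotient.mk (gSetoid B) ⟨fun v => x.1 (Sum.inr v), h.isPt x.2⟩)
    (IntermediateField.relfinrank (coordField K p fun v => x.1 (Sum.inr v))
      (coordField K (addBlock n p) x.1) : ℤ)

theorem pushGPt_eq {X : MVar K (addBlock n p) (Fin r ⊕ R)} {B : MVar K p R}
    (h : X.IsOver B) (x y : GPt X) (hxy : x ≈ y) : pushGPt h x = pushGPt h y := by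
    obtain ⟨s, c, hc, h1⟩ := hxy
    have e1 := coordField_image (p := addBlock n p)
      (s : AlgebraicClosure K →ₐ[K] AlgebraicClosure K) c hc h1
    have e2 := coordField_image (p := p) (s : AlgebraicClosure K →ₐ[K] AlgebraicClosure K)
      (fun j => c (some j)) (fun j => hc _) (x := fun v => x.1 (Sum.inr v))
      (y := fun v => y.1 (Sum.inr v)) (fun v => h1 (Sum.inr v))
    rw [pushGPt, pushGPt, e1, e2, IntermediateField.relfinrank_map_map]
    congr 1
    exact Quotient.sound ⟨s, fun j => c (some j), fun j => hc _, fun v => h1 (Sum.inr v)⟩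

/-- The push-forward of a closed point. -/
noncomputable def pushPt {X : MVar K (addBlock n p) (Fin r ⊕ R)} {B : MVar K p R}
    (h : X.IsOver B) : ClosedPoint X → (ClosedPoint B →₀ ℤ) :=
  Quotient.lift (pushGPt h) (pushGPt_eq h)

/-- The push-forward of zero-cycles. -/
noncomputable def pushZ {X : MVar K (addBlock n p) (Fin r ⊕ R)} {B : MVar K p R}
    (h : X.IsOver B) : (ClosedPoint X →₀ ℤ) →+ (ClosedPoint B →₀ ℤ) :=
  linExt (pushPt h)

end family

end ZF
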