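import Pool.Agent.Helper15.ZF.Section

/-! # The degree of zero-cycles -/

set_option autoImplicit false

open MvPolynomial ZC TensorProduct

namespace ZF

universe u

section deg

variable {K : Type u} [Field K] {V ι R : Type} {p : V → ι}

theorem finrank_coordField_image {L M : Type*} [Field L] [Algebra K L] [Field M] [Algebra K M]
    (s : L →ₐ[K] M) (c : ι → M) (hc : ∀ j, c j ≠ 0) {x : V → L} {y : V → M}
    (h : ∀ v, y v = c (p v) * s (x v)) :
    Module.finrank K (coordField K p y) = Module.finrank K (coordField K p x) := by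
  rw [coordField_image s c hc h]
  exact (((coordField K p x).equivMap s).toLinearEquiv.finrank_eq).symm

/-- The degree of the closed point under a geometric point. -/
noncomputable def GPt.deg {X : MVar K p R} (y : GPt X) : ℕ :=
  Module.finrank K (coordField K p y.1)

theorem GPt.deg_eq {X : MVar K p R} (y y' : GPt X) (hy : y ≈ y') : y.deg = y'.deg := by
  obtain ⟨s, c, hc, h⟩ := hy
  exact (finrank_coordField_image (s : AlgebraicClosure K →ₐ[K] AlgebraicClosure K)
    c hc h).symm

/-- The degree of a closed point. -/
noncomputable def ClosedPoint.deg {X : MVar K p R} (P : ClosedPoint X) : ℕ :=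
  Quotient.lift GPt.deg GPt.deg_eq P

theorem deg_closedPt (X : MVar K p R) {L : Type*} [Field L] [Algebra K L]
    [Algebra.IsAlgebraic K L] (x : V → L) (hx : X.IsPt x) :
    (closedPt X x hx).deg = Module.finrank K (coordField K p x) :=
  finrank_coordField_image (IsAlgClosed.lift : L →ₐ[K] AlgebraicClosure K) (fun _ => 1)
    (fun _ => one_ne_zero) (x := x) (fun _ => (one_mul _).symm)

/-- The degree of a zero-cycle. -/
noncomputable def degZ (X : MVar K p R) : (ClosedPoint X →₀ ℤ) →+ ℤ :=
  linExt fun P => (P.deg : ℤ)

theorem degZ_single (X : MVar K p R) (P : ClosedPoint X) (m : ℤ) :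
    degZ X (Finsupp.single P m) = m * P.deg := by
  rw [degZ, linExt_single, smul_eq_mul]

/-- The degree of the push-forward of `Spec L` is `[L : K]`. -/
theorem degZ_ptCycle (X : MVar K p R) {L : Type*} [Field L] [Algebra K L]
    [FiniteDimensional K L] (x : V → L) (hx : X.IsPt x) :
    degZ X (ptCycle X x hx) = Module.finrank K L := by
  have halg : Algebra.IsAlgebraic K L := inferInstance
  rw [ptCycle, dif_pos halg, degZ_single, deg_closedPt]
  have h := Module.finrank_mul_finrank K (coordField K p x) L
  rw [← h]
  push_cast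
  ring

theorem single_zsmul (X : MVar K p R) (P : ClosedPoint X) (a : ℤ) :
    Finsupp.single P a = a • Finsupp.single P (1 : ℤ) := by
  rw [Finsupp.smul_single, smul_eq_mul, mul_one]

variable [Finite V]

/-- The degree of a principal divisor on a curve. -/
theorem degZ_curveCycle (X : MVar K p R) {E : Type u} [Field E] [Algebra K E]
    (hE : IsCurveField K E) (x : V → E) (hx : X.IsPt x) (g : E) (hg : g ≠ 0) :
    degZ X (curveCycle X x hx g) = 0 := by
  rw [curveCycle, AddMonoidHom.map_finsum _ (finite_support hE g _), ← (sum_ord_deg hE g hg).2]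
  refine finsum_congr fun w => ?_
  have := Place.finite_residue hE w
  rw [map_zsmul, degZ_ptCycle, smul_eq_mul]
  rfl

/-- Zero-cycles rationally equivalent to zero have degree zero. -/
theorem ratEquiv_le_ker (X : MVar K p R) : ratEquiv X ≤ (degZ X).ker := by
  rw [ratEquiv, AddSubgroup.closure_le]
  rintro c ⟨E, iF, iA, hE, x, hx, g, hg, rfl⟩
  exact degZ_curveCycle X hE x hx g hg

/-- The degree map on the Chow group of zero-cycles. -/
noncomputable def CH0.deg (X : MVar K p R) : CH0 X →+ ℤ :=
  QuotientAddGroup.lift (ratEquiv X) (degZ X) (ratEquiv_le_ker X)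

theorem CH0.deg_mk (X : MVar K p R) (c : ClosedPoint X →₀ ℤ) :
    CH0.deg X (CH0.mk X c) = degZ X c := rfl

/-- The degree does not change under push-forward. -/
theorem degZ_pushZ {n r : ℕ} {X : MVar K (addBlock n p) (Fin r ⊕ R)} {B : MVar K p R}
    (h : X.IsOver B) (c : ClosedPoint X →₀ ℤ) : degZ B (pushZ h c) = degZ X c := by
  induction c using Finsupp.induction_linear with
  | zero => simp only [map_zero]
  | add f g hf hg => rw [map_add, map_add, map_add, hf, hg]
  | single P a =>
    have := coordField_finite (p := addBlock n p) P.out.1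
    rw [single_zsmul, map_zsmul, map_zsmul, map_zsmul, ← single_out P, pushZ_ptCycle,
      degZ_ptCycle, degZ_ptCycle]

theorem CH0.deg_push {n r : ℕ} {X : MVar K (addBlock n p) (Fin r ⊕ R)} {B : MVar K p R}
    (h : X.IsOver B) (c : CH0 X) : CH0.deg B (CH0.push h c) = CH0.deg X c := by
  obtain ⟨c, rfl⟩ := CH0.mk_surjective X c
  rw [CH0.push_mk, CH0.deg_mk, CH0.deg_mk, degZ_pushZ]

end deg

end ZF
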