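import Pool.Agent.Helper15.ZF.Rational

/-!
# Families of zero-cycle classes over the completions

`k` is a field with a subfield `F`; its places `v` are those of `k / F`.

* `LocFam F X`: families of representatives of elements of `CH₀ (X over k_v) / m`;
* `LocFam.Compat`: the family gives an element of `lim CH₀ (X over k_v) / m` for every `v`;
* `LocFam.Global`: it comes from an element of `lim CH₀ (X) / m`;
* `LocFam.Orth`: it is orthogonal to the constant Brauer classes;
* `LocFam.push`: the push-forward;
* `IsTower X`: `X` is obtained from the point by finitely many families of intersections of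
  hypersurfaces of low degree.
-/

set_option autoImplicit false

open MvPolynomial ZC

namespace ZF

universe u

/-- The classes of `a` and `b` modulo `m` agree. -/
def SameMod {G : Type u} [AddCommGroup G] (m : ℕ) (a b : G) : Prop :=
  ∃ g : G, a - b = m • g

/-- The class of the base change of a zero-cycle. -/
noncomputable def bcCl {K : Type u} [Field K] {V ι R : Type} [Finite V] {p : V → ι}
    (X : MVar K p R) (K' : Type u) [Field K'] [Algebra K K'] (Z : ClosedPoint X →₀ ℤ) :
    CH0 (X.bc K') :=
  CH0.mk (X.bc K') (bcZ X K' Z)

/-- The push-forward of a zero-cycle class. -/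
noncomputable def pushCl {K : Type u} [Field K] {V ι R : Type} [Finite V] {p : V → ι} {n r : ℕ}
    {X : MVar K (addBlock n p) (Fin r ⊕ R)} {B : MVar K p R} (h : X.IsOver B) (c : CH0 X) :
    CH0 B :=
  CH0.push h c

section families

variable {F k : Type u} [Field F] [Field k] [Algebra F k]

/-- The completion of `k` at `v` is a `k`-algebra. -/
noncomputable instance (v : Place F k) : Algebra k v.Completion := v.emb.toAlgebra

variable (F) in
/-- Families `z v m` of zero-cycle classes on `X` over the completions of `k`. -/
def LocFam {V ι R : Type} [Finite V] {p : V → ι} (X : MVar k p R) : Type u :=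
  ∀ v : Place F k, ℕ → CH0 (X.bc v.Completion)

variable {V ι R : Type} [Finite V] {p : V → ι}

/-- For every `v` the classes of the `z v m` modulo `m` form an element of
`lim CH₀ (X over k_v) / m`. -/
def LocFam.Compat {X : MVar k p R} (z : LocFam F X) : Prop :=
  ∀ v, IsCompat (z v)

/-- There are zero-cycles `Z m` on `X`, compatible modulo rational equivalence and `m`, such that
the base change of `Z m` to `k_v` agrees with `z v m` modulo rational equivalence and `m`. -/
def LocFam.Global {X : MVar k p R} (z : LocFam F X) : Prop :=
  ∃ Z : ℕ → ClosedPoint X →₀ ℤ, IsCompat (fun m => CH0.mk X (Z m)) ∧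
    ∀ (v : Place F k) (m : ℕ), 0 < m →
      SameMod m (bcCl X v.Completion (Z m)) (z v m)

/-- The value at the zero-cycle class `z` on `X` over `k_v` of the constant Brauer class given by
the cyclic algebra of `f` in `k` and the constant extension of degree `m` of `k`: the degree of `z`
times the local invariant `ord_v f * deg v / m` in `ℚ / ℤ`. -/
noncomputable def constPairing (v : Place F k) {X : MVar v.Completion p R} (z : CH0 X) (f : k)
    (m : ℕ) : AddCircle (1 : ℚ) :=
  ((CH0.deg X z * (v.ord f * v.deg / m) : ℚ) : AddCircle (1 : ℚ))

/-- The family is orthogonal to the constant Brauer classes. -/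
def LocFam.Orth {X : MVar k p R} (z : LocFam F X) : Prop :=
  ∀ (f : k) (m : ℕ), f ≠ 0 → 0 < m → ∑ᶠ v : Place F k, constPairing v (z v m) f m = 0

/-- The push-forward of a family. -/
noncomputable def LocFam.push {n r : ℕ} {X : MVar k (addBlock n p) (Fin r ⊕ R)} {B : MVar k p R}
    (h : X.IsOver B) (z : LocFam F X) : LocFam F B :=
  fun v m => pushCl (h.bc v.Completion) (z v m)

end families

/-- `X` is obtained from the point by finitely many steps which replace a variety `B` by a family
over `B` of intersections of hypersurfaces of low degree. -/
inductive IsTower {K : Type u} [Field K] :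
    ∀ {V ι R : Type} {p : V → ι}, MVar K p R → Prop
  | point (X : MVar K (id : Empty → Empty) Empty) : IsTower X
  | step {V ι R : Type} {p : V → ι} {n r : ℕ} {B : MVar K p R}
      {X : MVar K (addBlock n p) (Fin r ⊕ R)} (hB : IsTower B) (h : Low X B) : IsTower X

end ZF
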