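import Pool.Agent.Helper15.ZF.Push
import Pool.Agent.Helper15.ZF.C3

/-! # The fibres of a family of intersections of hypersurfaces of low degree -/

set_option autoImplicit false

open MvPolynomial ZC

namespace ZF

universe u

section fib

variable {K : Type u} [Field K] {V ι R : Type} {p : V → ι} {n r : ℕ}

theorem mapDomain_none (m : Fin (n + 1) ⊕ V →₀ ℕ) :
    m.mapDomain (addBlock n p) none =
      ∑ v ∈ m.support, Sum.elim (fun _ => 1) (fun _ => 0) v * m v := by
  rw [Finsupp.mapDomain, Finsupp.sum_apply, Finsupp.sum]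
  refine Finset.sum_congr rfl fun v _ => ?_
  rcases v with v | v
  · simp [addBlock]
  · simp [addBlock]

/-- The fibre over a point with coordinates `y`. -/
noncomputable def fib (X : MVar K (addBlock n p) (Fin r ⊕ R)) {L : Type u} [Field L]
    [Algebra K L] (y : V → L) : ProjVar L n r where
  form i := aeval (Sum.elim MvPolynomial.X (fun v => C (y v))) (X.form (Sum.inl i))
  d i := X.deg (Sum.inl i) none
  hom i := by
    rw [aeval_def, eval₂_eq]
    refine IsHomogeneous.sum _ _ _ fun m hm => ?_
    have h1 : X.deg (Sum.inl i) none =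
        0 + ∑ v ∈ m.support, Sum.elim (fun _ => 1) (fun _ => 0) v * m v := by
      rw [← X.hom _ m hm, mapDomain_none, zero_add]
    rw [h1]
    refine IsHomogeneous.mul (isHomogeneous_C _ _) (IsHomogeneous.prod _ _ _ fun v _ => ?_)
    refine IsHomogeneous.pow ?_ _
    rcases v with v | v
    · exact isHomogeneous_X _ _
    · exact isHomogeneous_C _ _

theorem isPt_of_fib {X : MVar K (addBlock n p) (Fin r ⊕ R)} {B : MVar K p R} (h : X.IsOver B)
    {L M : Type u} [Field L] [Algebra K L] [Field M] [Algebra L M] [Algebra K M]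
    [IsScalarTower K L M] (y : V → L) (hy : B.IsPt y) (x : Fin (n + 1) → M)
    (hx : (fib X y).IsPt x) : X.IsPt (Sum.elim x fun v => algebraMap L M (y v)) := by
  refine ⟨fun j => ?_, fun i => ?_⟩
  · rcases j with _ | j
    · obtain ⟨a, ha⟩ : ∃ a, x a ≠ 0 := by
        by_contra hcon
        push Not at hcon
        exact hx.1 (funext hcon)
      exact ⟨Sum.inl a, rfl, ha⟩
    · obtain ⟨v, hv, h0⟩ := hy.1 j
      exact ⟨Sum.inr v, congrArg some hv, (_root_.map_ne_zero _).2 h0⟩
  · rcases i with i | i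
    · have h1 := hx.2 i
      change aeval x (aeval (Sum.elim MvPolynomial.X (fun v => C (y v)))
        (X.form (Sum.inl i))) = 0 at h1
      rw [← h1]
      have h2 : (aeval (Sum.elim x fun v => algebraMap L M (y v)) :
          MvPolynomial (Fin (n + 1) ⊕ V) K →ₐ[K] M) =
          ((aeval x : MvPolynomial (Fin (n + 1)) L →ₐ[L] M).restrictScalars K).comp
            (aeval (Sum.elim MvPolynomial.X (fun v => C (y v)))) := by
        apply MvPolynomial.algHom_ext
        rintro (a | v)
        · simp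
        · simp
      rw [h2]
      rfl
    · rw [h i, aeval_rename]
      have h1 : (Sum.elim x fun v => algebraMap L M (y v)) ∘ Sum.inr =
          fun v => IsScalarTower.toAlgHom K L M (y v) := rfl
      rw [h1]
      exact (isPt_comp B (IsScalarTower.toAlgHom K L M) hy).2 i

theorem fib_isPt {X : MVar K (addBlock n p) (Fin r ⊕ R)}
    {L : Type u} [Field L] [Algebra K L] {x : Fin (n + 1) → L} {y : V → L}
    (hq : X.IsPt (Sum.elim x y)) : (fib X y).IsPt x := by
  refine ⟨fun h => ?_, fun i => ?_⟩
  · obtain ⟨v, hv, h0⟩ := hq.1 none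
    rcases v with v | v
    · exact h0 (congrFun h v)
    · exact absurd hv (by simp [addBlock])
  · change aeval x (aeval (Sum.elim MvPolynomial.X
      (fun v => C (y v))) (X.form (Sum.inl i))) = 0
    have h1 := hq.2 (Sum.inl i)
    rw [← h1]
    have h2 : (aeval (Sum.elim x y) : MvPolynomial (Fin (n + 1) ⊕ V) K →ₐ[K] L) =
        ((aeval x : MvPolynomial (Fin (n + 1)) L →ₐ[L] L).restrictScalars
          K).comp (aeval (Sum.elim MvPolynomial.X (fun v => C (y v)))) := by
      apply MvPolynomial.algHom_ext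
      rintro (a | v)
      · simp
      · simp
    rw [h2]
    rfl

/-- The fibres have rational points. -/
theorem exists_lift {X : MVar K (addBlock n p) (Fin r ⊕ R)} {B : MVar K p R} (h : X.IsOver B)
    {L : Type u} [Field L] [Algebra K L] {q : ℕ} (hL : HasC q L)
    (hd : ∀ i, 0 < X.deg (Sum.inl i) none) (hn : ∑ i, X.deg (Sum.inl i) none ^ q ≤ n)
    (y : V → L) (hy : B.IsPt y) :
    ∃ x : Fin (n + 1) → L, X.IsPt (Sum.elim x y) := by
  obtain ⟨x, hx0, hx⟩ := hL (Fin r) (Fin (n + 1)) (fib X y).form (fib X y).d (fib X y).hom hd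
    (by rw [Fintype.card_fin]; exact Nat.lt_succ_of_le hn)
  exact ⟨x, isPt_of_fib h (M := L) y hy x ⟨hx0, fun i => by rw [aeval_eq_eval]; exact hx i⟩⟩

theorem sum_le {d : Fin r → ℕ} (h : ∑ i, d i ^ 3 ≤ n) :
    ∑ i, d i * (2 * d i ^ 2 + 1) ≤ 3 * n := by
  refine le_trans ?_ (Nat.mul_le_mul_left 3 h)
  rw [Finset.mul_sum]
  refine Finset.sum_le_sum fun i _ => ?_
  rcases Nat.eq_zero_or_pos (d i) with h0 | h0
  · rw [h0]; simp
  · have h1 : d i ≤ d i ^ 3 := Nat.le_self_pow (by norm_num) _
    have h2 : d i * (2 * d i ^ 2 + 1) = 2 * d i ^ 3 + d i := by ring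
    omega

theorem sum_sq_le {d : Fin r → ℕ} (hd : ∀ i, 0 < d i) (h : ∑ i, d i ^ 3 ≤ n) :
    ∑ i, d i ^ 2 ≤ n :=
  le_trans (Finset.sum_le_sum fun i _ => Nat.pow_le_pow_right (hd i) (by norm_num)) h

/-- Two points of the same fibre are rationally equivalent. -/
theorem fibre_equiv [Finite V] {X : MVar K (addBlock n p) (Fin r ⊕ R)} {B : MVar K p R}
    (h : X.IsOver B) {L : Type u} [Field L] [Algebra K L] [FiniteDimensional K L] (hL : C2 L)
    (hn : ∑ i, X.deg (Sum.inl i) none ^ 3 ≤ n) (x x' : Fin (n + 1) → L) (y : V → L)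
    (hx : X.IsPt (Sum.elim x y)) (hx' : X.IsPt (Sum.elim x' y)) :
    ptCycle X (Sum.elim x y) hx - ptCycle X (Sum.elim x' y) hx' ∈ ratEquiv X := by
  have hy : B.IsPt y := h.isPt hx
  obtain ⟨z, hz, h1, h2⟩ := exists_lines (K := L) hL (fib X y) (sum_le hn) x x'
    (fib_isPt hx) (fib_isPt hx')
  have hz' : X.IsPt (Sum.elim z y) := isPt_of_fib h (M := L) y hy z hz
  have key : ∀ x : Fin (n + 1) → L, (fib X y).IsPt (fun i => RatFunc.C (x i) +
      RatFunc.X * RatFunc.C (z i) : Fin (n + 1) → RatFunc L) →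
      X.IsPt (fun v => RatFunc.C (Sum.elim x y v) + RatFunc.X * RatFunc.C (Sum.elim z y v) :
        Fin (n + 1) ⊕ V → RatFunc L) := by
    intro x hx1
    have h3 := isPt_of_fib h (M := RatFunc L) y hy _ hx1
    have h4 : (1 + RatFunc.X : RatFunc L) ≠ 0 := by
      intro h0
      have h5 : algebraMap (Polynomial L) (RatFunc L) (1 + Polynomial.X) = 0 := by
        rw [map_add, map_one, RatFunc.algebraMap_X]
        exact h0
      have h6 := (map_eq_zero_iff _ (RatFunc.algebraMap_injective L)).mp h5
      have h7 := congrArg (Polynomial.coeff · 0) h6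
      simp at h7
    refine isPt_scale X (fun j => Option.elim j 1 fun _ => 1 + RatFunc.X) (fun j => ?_) h3
      (fun v => ?_)
    · rcases j with _ | j
      · exact one_ne_zero
      · exact h4
    · rcases v with v | v
      · simp [addBlock]
      · simp only [addBlock, Sum.elim_inr, Option.elim]
        change _ = (1 + RatFunc.X) * RatFunc.C (y v)
        ring
  have e1 := line_equiv X _ _ hx hz' (key x h1)
  have e2 := line_equiv X _ _ hx' hz' (key x' h2)
  have := (ratEquiv X).sub_mem e1 e2
  rwa [sub_sub_sub_cancel_right] at this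

end fib

end ZF
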