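import Pool.Agent.Helper15.ZF.Basic

/-! # Rational equivalence along a line -/

set_option autoImplicit false

open MvPolynomial ZC

namespace ZF

universe u

section red

variable {K E : Type u} [Field K] [Field E] [Algebra K E] {V ι R : Type} {p : V → ι}

/-- The value of a point at a place, computed with any coordinates which are integral and not all
in the maximal ideal. -/
theorem red_eq [Finite V] (w : Place K E) (y : V → E) (hy : Nonvan p y) (g : ι → E)
    (y' : V → w.A) (h : ∀ v, y v = g (p v) * (y' v : E))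
    (hu : ∀ j, ∃ v, p v = j ∧ IsUnit (y' v)) :
    ∃ c : ι → w.res, (∀ j, c j ≠ 0) ∧
      ∀ v, red w p y hy v = c (p v) * IsLocalRing.residue w.A (y' v) := by
  set u : ι → V := fun j => (exists_max w p y hy j).choose with hudef
  have hu1 : ∀ j, p (u j) = j := fun j => (exists_max w p y hy j).choose_spec.1
  have hu2 : ∀ j, y (u j) ≠ 0 := fun j => (exists_max w p y hy j).choose_spec.2.1
  have hu3 : ∀ j v, p v = j → y v / y (u j) ∈ w.A := fun j v hv =>
    (exists_max w p y hy j).choose_spec.2.2 v hv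
  have hg : ∀ j, g j ≠ 0 := by
    intro j h0
    apply hu2 j
    rw [h, hu1, h0, zero_mul]
  have hy0 : ∀ j, (y' (u j) : E) ≠ 0 := by
    intro j h0
    apply hu2 j
    rw [h, h0, mul_zero]
  have key : ∀ j v (hv : p v = j), y' v = ⟨y v / y (u j), hu3 j v hv⟩ * y' (u j) := by
    intro j v hv
    apply Subtype.ext
    change (y' v : E) = y v / y (u j) * (y' (u j) : E)
    rw [h v, h (u j), hu1, hv, mul_div_mul_left _ _ (hg j), div_mul_cancel₀ _ (hy0 j)]
  have hres : ∀ j, IsLocalRing.residue w.A (y' (u j)) ≠ 0 := by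
    intro j
    obtain ⟨v, hv, hun⟩ := hu j
    rw [IsLocalRing.residue_ne_zero_iff_isUnit]
    rw [key j v hv] at hun
    exact isUnit_of_mul_isUnit_right hun
  refine ⟨fun j => (IsLocalRing.residue w.A (y' (u j)))⁻¹, fun j => inv_ne_zero (hres j),
    fun v => ?_⟩
  have h2 := congrArg (IsLocalRing.residue w.A) (key (p v) v rfl)
  rw [map_mul] at h2
  rw [h2, mul_comm, mul_assoc, mul_inv_cancel₀ (hres _), mul_one]
  rfl

end red

section line

variable {K L E : Type u} [Field K] [Field L] [Field E] [Algebra K L] [Algebra L E] [Algebra K E]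
  [IsScalarTower K L E] [Algebra.IsAlgebraic K L] {V ι R : Type} [Finite V] {p : V → ι}

/-- The value at `t = 0` of the point `x + t z`. -/
theorem ptCycle_red (X : MVar K p R) (w : Place K E) {t : E} (hw : w.A.valuation t < 1)
    (hadj : IntermediateField.adjoin L {t} = ⊤) (x z : V → L) (hx : X.IsPt x)
    (y : V → E) (hy : X.IsPt y) (g : E)
    (h : ∀ v, y v = g * (algebraMap L E (x v) + t * algebraMap L E (z v))) :
    ptCycle X (red w p y hy.1) (red_isPt X w y hy) = ptCycle X x hx := by
  let y' : V → w.A := fun v =>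
    Place.emL w (x v) + ⟨t, Place.t_mem w hw⟩ * Place.emL w (z v)
  have hres : ∀ v, IsLocalRing.residue w.A (y' v) = Place.emRes w (x v) := by
    intro v
    change IsLocalRing.residue w.A (_ + _ * _) = _
    rw [map_add, map_mul, Place.residue_t w hw, zero_mul, add_zero]
    rfl
  have hu : ∀ j, ∃ v, p v = j ∧ IsUnit (y' v) := by
    intro j
    obtain ⟨v, hv, h0⟩ := hx.1 j
    refine ⟨v, hv, ?_⟩
    rw [← IsLocalRing.residue_ne_zero_iff_isUnit, hres]
    exact (_root_.map_ne_zero _).2 h0
  obtain ⟨c, hc, h1⟩ := red_eq w y hy.1 (fun _ => g) y' h hu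
  refine (ptCycle_congr X (Place.resEquiv w hw hadj) c hc hx _ fun v => ?_).symm
  rw [h1 v, hres, Place.resEquiv_apply]

end line

section ratfunc

variable {K L : Type u} [Field K] [Field L] [Algebra K L]

/-- The points at `0` and `∞` of a parametrised curve `x + t z` on `X` are rationally
equivalent. -/
theorem line_equiv {V ι R : Type} [Finite V] {p : V → ι} [FiniteDimensional K L]
    (X : MVar K p R) (x z : V → L) (hx : X.IsPt x) (hz : X.IsPt z)
    (h : X.IsPt (fun v => RatFunc.C (x v) + RatFunc.X * RatFunc.C (z v) : V → RatFunc L)) :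
    ptCycle X x hx - ptCycle X z hz ∈ ratEquiv X := by
  classical
  refine AddSubgroup.subset_closure ⟨RatFunc L, inferInstance, inferInstance,
    isCurveField_ratFunc, _, h, RatFunc.X, RatFunc.X_ne_zero, ?_⟩
  let w0 : Place K (RatFunc L) := zeroPlace K (RatFunc.X : RatFunc L) transcendental_X
    RatFunc.adjoin_X
  let w1 : Place K (RatFunc L) := zeroPlace K (RatFunc.X⁻¹ : RatFunc L) transcendental_X_inv
    adjoin_X_inv
  have h0 : w0.A.valuation (RatFunc.X : RatFunc L) < 1 :=
    val_zeroPlace _ transcendental_X RatFunc.adjoin_X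
  have h1 : w1.A.valuation (RatFunc.X⁻¹ : RatFunc L) < 1 :=
    val_zeroPlace _ transcendental_X_inv adjoin_X_inv
  have hX0 : (RatFunc.X : RatFunc L) ≠ 0 := RatFunc.X_ne_zero
  have hne : w0 ≠ w1 := by
    intro hw
    rw [← hw, map_inv₀] at h1
    have h2 : 0 < w0.A.valuation (RatFunc.X : RatFunc L) :=
      zero_lt_iff.2 ((Valuation.ne_zero_iff _).2 hX0)
    exact absurd h0 (not_lt.2 ((inv_lt_one₀ h2).1 h1).le)
  have hsupp : ∀ w : Place K (RatFunc L), w ≠ w0 → w ≠ w1 → w.ord RatFunc.X = 0 := by
    intro w hw0 hw1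
    rcases lt_trichotomy (w.A.valuation (RatFunc.X : RatFunc L)) 1 with hlt | heq | hgt
    · exact absurd (Place.unique_zero RatFunc.adjoin_X w w0 hlt h0) hw0
    · exact Place.ord_of_unit w heq
    · refine absurd (Place.unique_zero adjoin_X_inv w w1 ?_ h1) hw1
      rw [map_inv₀]
      exact inv_lt_one_of_one_lt₀ hgt
  have e0 : w0.ord (RatFunc.X : RatFunc L) = 1 :=
    Place.ord_t w0 transcendental_X RatFunc.adjoin_X h0
  have e1 : w1.ord (RatFunc.X : RatFunc L) = -1 := by
    have := Place.ord_t_inv w1 transcendental_X_inv adjoin_X_inv h1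
    rwa [inv_inv] at this
  have c0 : ptCycle X (red w0 p _ h.1) (red_isPt X w0 _ h) = ptCycle X x hx :=
    ptCycle_red X w0 h0 RatFunc.adjoin_X x z hx _ h 1 (fun i => by rw [one_mul]; rfl)
  have c1 : ptCycle X (red w1 p _ h.1) (red_isPt X w1 _ h) = ptCycle X z hz :=
    ptCycle_red X w1 h1 adjoin_X_inv z x hz _ h RatFunc.X (fun i => by
      rw [mul_add, mul_inv_cancel_left₀ hX0, add_comm]; rfl)
  rw [curveCycle, finsum_eq_sum_of_support_subset (s := {w0, w1}), Finset.sum_pair hne, e0, e1,
    c0, c1, one_smul, neg_smul, one_smul, sub_eq_add_neg]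
  intro w hw
  rw [Function.mem_support] at hw
  by_contra hcon
  simp only [Finset.coe_insert, Finset.coe_singleton, Set.mem_insert_iff,
    Set.mem_singleton_iff, not_or] at hcon
  exact hw (by rw [hsupp w hcon.1 hcon.2, zero_smul])

end ratfunc

end ZF
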