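import Pool.Agent.Helper15.ZF.Under

/-! # Norms and orders -/

set_option autoImplicit false

namespace ZC

universe u

open PCl IntermediateField

/-- A finite extension of a function field is a function field. -/
theorem isCurveField_of_finite {K E M : Type u} [Field K] [Field E] [Field M] [Algebra K E]
    [Algebra K M] [Algebra E M] [IsScalarTower K E M] [FiniteDimensional E M]
    (hE : IsCurveField K E) : IsCurveField K M := by
  obtain ⟨t, ht, hf⟩ := hE
  have htr : Transcendental K (algebraMap E M t) :=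
    (transcendental_algebraMap_iff (algebraMap E M).injective).2 ht
  refine ⟨algebraMap E M t, htr, ?_⟩
  have h1 : Module.Finite (IntermediateField.adjoin K {t}) M := Module.Finite.trans E M
  have hle : ∀ a : IntermediateField.adjoin K {t}, algebraMap E M (a : E) ∈
      IntermediateField.adjoin K {algebraMap E M t} := by
    rintro ⟨a, ha⟩
    have h2 : (IntermediateField.adjoin K {t}).map (IsScalarTower.toAlgHom K E M) =
        IntermediateField.adjoin K {algebraMap E M t} := by
      rw [IntermediateField.adjoin_map, Set.image_singleton]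
      rfl
    rw [← h2]
    exact ⟨a, ha, rfl⟩
  let φ : IntermediateField.adjoin K {t} →+* IntermediateField.adjoin K {algebraMap E M t} :=
    ((algebraMap E M).comp (IntermediateField.adjoin K {t}).val.toRingHom).codRestrict
      (IntermediateField.adjoin K {algebraMap E M t}).toSubring hle
  let _ : Algebra (IntermediateField.adjoin K {t})
    (IntermediateField.adjoin K {algebraMap E M t}) := φ.toAlgebra
  have : IsScalarTower (IntermediateField.adjoin K {t})
      (IntermediateField.adjoin K {algebraMap E M t}) M :=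
    IsScalarTower.of_algebraMap_eq fun a => rfl
  exact Module.Finite.of_restrictScalars_finite (IntermediateField.adjoin K {t})
    (IntermediateField.adjoin K {algebraMap E M t}) M

section norm

variable {K : Type u} {E : Type u} {E' : Type u} [Field K] [Field E] [Field E'] [Algebra K E]
  [Algebra K E'] [Algebra E E'] [IsScalarTower K E E']

/-- weak approximation -/
theorem exists_approx (hE : IsCurveField K E) (T : Finset (Place K E)) (y : Place K E → E) {z : E}
    (hz : z ≠ 0) : ∃ x : E, ∀ w ∈ T, (x - y w) / z ∈ w.A := by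
  classical
  let oA : ValuationSubring E → E → ℤ := fun A =>
    if h : ∃ w ∈ T, w.A = A then h.choose.ord else 0
  let yA : ValuationSubring E → E := fun A => if h : ∃ w ∈ T, w.A = A then y h.choose else 0
  have hoA : ∀ A ∈ T.image Place.A, IsOrd A (oA A) := by
    intro A hA
    obtain ⟨w, hw, rfl⟩ := Finset.mem_image.1 hA
    have hex : ∃ w' ∈ T, w'.A = w.A := ⟨w, hw, rfl⟩
    have : hex.choose = w := Place.ext_A hex.choose_spec.2
    simp only [oA, dif_pos hex, this]
    exact w.isOrd_of hE.hRel
  obtain ⟨x, hx⟩ := approx oA (T.image Place.A) hoA yA (fun _ => z) (fun _ _ => hz)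
  refine ⟨x, fun w hw => ?_⟩
  have h1 := hx w.A (Finset.mem_image_of_mem _ hw)
  have hex : ∃ w' ∈ T, w'.A = w.A := ⟨w, hw, rfl⟩
  have : hex.choose = w := Place.ext_A hex.choose_spec.2
  simp only [yA, dif_pos hex, this] at h1
  exact h1

theorem isOrd_prod {A : ValuationSubring E} {o : E → ℤ} (h : IsOrd A o) {ι : Type*}
    (s : Finset ι) (a : ι → E) (ha : ∀ i ∈ s, a i ≠ 0) :
    o (∏ i ∈ s, a i) = ∑ i ∈ s, o (a i) := by
  classical
  induction s using Finset.induction_on with
  | empty => rw [Finset.prod_empty, Finset.sum_empty, h.one]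
  | insert i s hi ih =>
    rw [Finset.prod_insert hi, Finset.sum_insert hi, h.mul _ _ (ha i (Finset.mem_insert_self i s))
      (Finset.prod_ne_zero_iff.2 fun j hj => ha j (Finset.mem_insert_of_mem hj)),
      ih fun j hj => ha j (Finset.mem_insert_of_mem hj)]

theorem isOrd_unit {A : ValuationSubring E} {o : E → ℤ} (h : IsOrd A o) (v : Aˣ) :
    o ((v : A) : E) = 0 := by
  have hv0 : ((v : A) : E) ≠ 0 := fun h => v.ne_zero (Subtype.ext h)
  have h5 : ((v : A) : E) * ((↑(v⁻¹) : A) : E) = 1 := congrArg Subtype.val (v.mul_inv)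
  have h7 : ((v : A) : E)⁻¹ = ((↑(v⁻¹) : A) : E) := (eq_inv_of_mul_eq_one_right h5).symm
  have h8 : ((v : A) : E)⁻¹ ∈ A := by rw [h7]; exact SetLike.coe_mem _
  rw [← h.nonneg _ (inv_ne_zero hv0), h.inv hv0] at h8
  have h9 := (h.nonneg _ hv0).2 (SetLike.coe_mem (v : A))
  omega

omit [Algebra K E'] [IsScalarTower K E E'] in
/-- The norm of an element of an order. -/
theorem finrank_quot_norm (hE : IsCurveField K E) [FiniteDimensional E E'] (w : Place K E)
    (C : Subalgebra w.A E') [Module.Finite w.A C] (hC : ∀ x : E', ∃ a : w.A, a ≠ 0 ∧ a • x ∈ C)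
    (θ : C) (hθ : θ ≠ 0) [Algebra K C] [IsScalarTower K w.A C] :
    Module.Finite K (C ⧸ Ideal.span {θ}) ∧ 0 ≤ w.ord (Algebra.norm E (θ : E')) ∧
      Module.finrank K (C ⧸ Ideal.span {θ}) =
        (w.ord (Algebra.norm E (θ : E'))).toNat * w.deg := by
  classical
  have hdvr := w.dvr hE
  have hfr := w.finite_residue hE
  have hord := w.isOrd_of hE.hRel
  have htf : Module.IsTorsionFree w.A C := by
    have : FaithfulSMul w.A C := (faithfulSMul_iff_algebraMap_injective w.A C).2 (by
      intro a b hab
      have h1 : algebraMap E E' a = algebraMap E E' b := congrArg Subtype.val hab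
      exact Subtype.ext ((algebraMap E E').injective h1))
    infer_instance
  have hfree : Module.Free w.A C := Module.free_of_finite_type_torsion_free'
  let b := Module.Free.chooseBasis w.A C
  have hI : Ideal.span {θ} ≠ ⊥ := by
    rw [Ne, Ideal.span_singleton_eq_bot]
    exact hθ
  -- the quotients
  set a : Module.Free.ChooseBasisIndex w.A C → w.A := (Ideal.span {θ}).smithCoeffs b hI with ha
  have ha0 : ∀ i, a i ≠ 0 := fun i => Ideal.smithCoeffs_ne_zero b _ hI i
  have ha0' : ∀ i, (a i : E) ≠ 0 := fun i h => ha0 i (Subtype.ext h)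
  have hq : ∀ i, Module.Finite K (w.A ⧸ Ideal.span {a i}) ∧
      Module.finrank K (w.A ⧸ Ideal.span {a i}) = (w.ord (a i : E)).toNat * w.deg := fun i =>
    w.finrank_quot hord _ (ha0 i)
  have hfin : ∀ i, Module.Finite K (w.A ⧸ Ideal.span {a i}) := fun i => (hq i).1
  have h1 := Ideal.finrank_quotient_eq_sum K hI b
  have hloc : IsLocalization (Algebra.algebraMapSubmonoid C (nonZeroDivisors w.A)) E' := by
    refine ⟨⟨?_, ?_, ?_⟩⟩
    · rintro ⟨_, c, hc, rfl⟩
      have hc0 : c ≠ 0 := nonZeroDivisors.ne_zero hc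
      refine IsUnit.mk0 _ fun h => hc0 ?_
      have h2 : algebraMap E E' (c : E) = 0 := h
      exact Subtype.ext ((map_eq_zero _).1 h2)
    · intro x
      obtain ⟨c, hc, hx⟩ := hC x
      refine ⟨⟨⟨c • x, hx⟩, ⟨algebraMap w.A C c, c, mem_nonZeroDivisors_of_ne_zero hc, rfl⟩⟩, ?_⟩
      change x * algebraMap E E' (c : E) = c • x
      rw [Algebra.smul_def, mul_comm]
      rfl
    · intro x y hxy
      exact ⟨1, by rw [Subtype.ext (show (x : E') = y from hxy)]⟩
  have hn : Algebra.norm E (θ : E') = ((Algebra.norm w.A θ : w.A) : E) :=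
    Algebra.norm_localization w.A (nonZeroDivisors w.A) (Rₘ := E) (Sₘ := E') θ
  have has := associated_norm_prod_smith b hθ
  have hor : w.ord (Algebra.norm E (θ : E')) = ∑ i, w.ord (a i : E) := by
    obtain ⟨v, hv⟩ := has.symm
    have h2 : (Algebra.norm E (θ : E')) = (∏ i, (a i : E)) * ((v : w.A) : E) := by
      rw [hn, ← hv]
      push_cast
      rfl
    rw [h2, hord.mul _ _ (Finset.prod_ne_zero_iff.2 fun i _ => ha0' i)
      (fun h => v.ne_zero (Subtype.ext h)), isOrd_unit hord, add_zero,
      isOrd_prod hord _ _ fun i _ => ha0' i]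
  have hpos : ∀ i, 0 ≤ w.ord (a i : E) := fun i => (hord.nonneg _ (ha0' i)).2 (a i).2
  refine ⟨?_, ?_, ?_⟩
  · exact Module.Finite.equiv
      ((Ideal.quotientEquivPiSpan (Ideal.span {θ}) b hI).restrictScalars K).symm
  · rw [hor]
    exact Finset.sum_nonneg fun i _ => hpos i
  · have h3 : ∑ i, w.ord (a i : E) = ((∑ i, (w.ord (a i : E)).toNat : ℕ) : ℤ) := by
      push_cast
      exact Finset.sum_congr rfl fun i _ => (Int.toNat_of_nonneg (hpos i)).symm
    rw [h1, hor, h3, Int.toNat_natCast, Finset.sum_mul]
    exact Finset.sum_congr rfl fun i _ => (hq i).2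

end norm

end ZC
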