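import Pool.Agent.Helper15.ZF.Norm

/-! # Norms and orders: the inequality -/

set_option autoImplicit false

namespace ZC

universe u

open PCl IntermediateField

section norm

variable {K : Type u} {E : Type u} {E' : Type u} [Field K] [Field E] [Field E'] [Algebra K E]
  [Algebra K E'] [Algebra E E'] [IsScalarTower K E E']

theorem mem_of_isIntegral_under [Algebra.IsAlgebraic E E'] {w : Place K E} {w' : Place K E'}
    (h : w'.under E = w) {b : E'} (hb : IsIntegral w.A b) : b ∈ w'.A := by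
  subst h
  have hb' : IsIntegral w'.A b := by
    obtain ⟨P, hP, hPb⟩ := hb
    refine ⟨P.map ((algebraMap E E').restrict (w'.under E).A w'.A fun a ha => ha), hP.map _, ?_⟩
    rw [Polynomial.eval₂_map]
    exact hPb
  obtain ⟨y, hy⟩ := IsIntegrallyClosed.isIntegral_iff.1 hb'
  rw [← hy]
  exact y.2

/-- The norm at a place: the inequality. -/
theorem sum_le_norm (hE : IsCurveField K E) (hE' : IsCurveField K E') [FiniteDimensional E E']
    (w : Place K E) (T : Finset (Place K E')) (hT : ∀ w', w' ∈ T ↔ w'.under E = w) {θ : E'}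
    (hθ : θ ≠ 0) (hθT : ∀ w' ∈ T, θ ∈ w'.A) :
    0 ≤ w.ord (Algebra.norm E θ) ∧
      ∑ w' ∈ T, (w'.ord θ).toNat * w'.deg ≤ (w.ord (Algebra.norm E θ)).toNat * w.deg := by
  classical
  have hint : ∀ x : E', (∀ w' ∈ T, x ∈ w'.A) → IsIntegral w.A x := fun x hx =>
    isIntegral_of_under hE w x fun w' hw' => hx w' ((hT w').2 hw')
  -- the quotients
  let I : ∀ w' : T, Ideal w'.1.A := fun w' => Ideal.span {⟨θ, hθT w'.1 w'.2⟩}
  have hq : ∀ w' : T, Module.Finite K (w'.1.A ⧸ I w') ∧
      Module.finrank K (w'.1.A ⧸ I w') = (w'.1.ord θ).toNat * w'.1.deg := fun w' => by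
    have := w'.1.dvr hE'
    have := w'.1.finite_residue hE'
    exact w'.1.finrank_quot (w'.1.isOrd_of hE'.hRel) _ fun h => hθ (congrArg Subtype.val h)
  have hfin : ∀ w' : T, Module.Finite K (w'.1.A ⧸ I w') := fun w' => (hq w').1
  have hfr : Module.finrank K (∀ w' : T, w'.1.A ⧸ I w') =
      ∑ w' ∈ T, (w'.ord θ).toNat * w'.deg := by
    rw [Module.finrank_pi_fintype, ← Finset.sum_coe_sort T]
    exact Finset.sum_congr rfl fun w' _ => (hq w').2
  -- lifts
  have hlift : ∀ q : (∀ w' : T, w'.1.A ⧸ I w'), ∃ x : E', ∀ w' : T, ∃ hx : x ∈ w'.1.A,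
      Ideal.Quotient.mk (I w') ⟨x, hx⟩ = q w' := by
    intro q
    choose y hy using fun w' : T => Ideal.Quotient.mk_surjective (q w')
    obtain ⟨x, hx⟩ := exists_approx hE' T
      (fun w' => if h : w' ∈ T then (y ⟨w', h⟩ : E') else 0) hθ
    refine ⟨x, fun w' => ?_⟩
    have h1 := hx w'.1 w'.2
    simp only [dif_pos w'.2] at h1
    have h2 : x = θ * ((x - (y w' : E')) / θ) + (y w' : E') := by
      field_simp
      ring
    have hxA : x ∈ w'.1.A := by
      rw [h2]
      exact w'.1.A.add_mem _ _ (w'.1.A.mul_mem _ _ (hθT w'.1 w'.2) h1) (y w').2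
    refine ⟨hxA, ?_⟩
    rw [← hy w', Ideal.Quotient.mk_eq_mk_iff_sub_mem, Ideal.mem_span_singleton]
    refine ⟨⟨_, h1⟩, Subtype.ext ?_⟩
    change x - (y w' : E') = θ * ((x - (y w' : E')) / θ)
    field_simp
  let bq := Module.finBasis K (∀ w' : T, w'.1.A ⧸ I w')
  choose x hxA hx using fun i => hlift (bq i)
  -- an integral basis
  have htow : IsScalarTower K w.A E' := IsScalarTower.of_algebraMap_eq fun a => by
    rw [IsScalarTower.algebraMap_apply K E E']
    rfl
  have halg : Algebra.IsAlgebraic w.A E' :=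
    (IsFractionRing.comap_isAlgebraic_iff (A := w.A) (K := E) (C := E')).2 inferInstance
  set bE := Module.finBasis E E' with hbE
  obtain ⟨a, ha0, ha⟩ := Algebra.IsAlgebraic.exists_integral_multiples w.A
    (Finset.univ.image bE)
  set S : Set E' := {θ} ∪ Set.range x ∪ Set.range (fun j => a • bE j) with hS
  have hSfin : S.Finite := ((Set.finite_singleton _).union (Set.finite_range _)).union
    (Set.finite_range _)
  have hSint : ∀ s ∈ S, IsIntegral w.A s := by
    rintro s ((rfl | ⟨i, rfl⟩) | ⟨j, rfl⟩)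
    · exact hint _ hθT
    · exact hint _ fun w' hw' => hxA i ⟨w', hw'⟩
    · exact ha _ (Finset.mem_image_of_mem _ (Finset.mem_univ _))
  set C := Algebra.adjoin w.A S with hCdef
  have hCfin : Module.Finite w.A C := Module.Finite.iff_fg.2 (fg_adjoin_of_finite hSfin hSint)
  have hCint : ∀ c ∈ C, IsIntegral w.A c := by
    intro c hc
    have h1 : C ≤ integralClosure w.A E' := Algebra.adjoin_le hSint
    exact h1 hc
  have hCA : ∀ (w' : T) (c : C), (c : E') ∈ w'.1.A := fun w' c =>
    mem_of_isIntegral_under ((hT w'.1).1 w'.2) (hCint c c.2)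
  have hC : ∀ y : E', ∃ c : w.A, c ≠ 0 ∧ c • y ∈ C := by
    intro y
    obtain ⟨d, hd⟩ := IsLocalization.exist_integer_multiples_of_finset (nonZeroDivisors w.A)
      (Finset.univ.image (bE.repr y))
    refine ⟨d * a, mul_ne_zero (nonZeroDivisors.coe_ne_zero d) ha0, ?_⟩
    have h1 : ((d : w.A) * a) • y = ∑ j, ((d : w.A) • bE.repr y j) • (a • bE j) := by
      conv_lhs => rw [← bE.sum_repr y]
      rw [Finset.smul_sum]
      refine Finset.sum_congr rfl fun j _ => ?_
      rw [mul_smul, smul_assoc, smul_comm a]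
    rw [h1]
    refine sum_mem fun j _ => ?_
    obtain ⟨r, hr⟩ := hd _ (Finset.mem_image_of_mem _ (Finset.mem_univ j))
    have h2 : ((d : w.A) • bE.repr y j) • (a • bE j) = r • (a • bE j) := by
      rw [← hr, algebraMap_smul]
    rw [h2]
    exact C.smul_mem (Algebra.subset_adjoin (Or.inr ⟨j, rfl⟩)) r
  have hθC : θ ∈ C := Algebra.subset_adjoin (Or.inl (Or.inl rfl))
  set t : C := ⟨θ, hθC⟩ with ht
  have ht0 : t ≠ 0 := fun h => hθ (congrArg Subtype.val h)
  obtain ⟨hf1, hf2, hf3⟩ := finrank_quot_norm hE w C hC t ht0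
  refine ⟨hf2, ?_⟩
  have hf3' : Module.finrank K (C ⧸ Ideal.span {t}) =
    (w.ord (Algebra.norm E θ)).toNat * w.deg := hf3
  rw [← hfr, ← hf3']
  -- the map to the quotients
  let ψ₀ : ∀ w' : T, C →ₐ[K] w'.1.A := fun w' =>
    { toFun := fun c => ⟨c, hCA w' c⟩
      map_one' := rfl
      map_mul' := fun _ _ => rfl
      map_zero' := rfl
      map_add' := fun _ _ => rfl
      commutes' := fun r => by
        apply Subtype.ext
        change ((algebraMap K C r : C) : E') = algebraMap K E' r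
        rw [IsScalarTower.algebraMap_apply K w.A C]
        change algebraMap w.A E' (algebraMap K w.A r) = _
        rw [← IsScalarTower.algebraMap_apply] }
  let ψ : C →ₐ[K] (∀ w' : T, w'.1.A ⧸ I w') :=
    AlgHom.pi fun w' => (Ideal.Quotient.mkₐ K (I w')).comp (ψ₀ w')
  have hψ : ∀ c ∈ Ideal.span {t}, ψ c = 0 := by
    intro c hc
    obtain ⟨c', rfl⟩ := Ideal.mem_span_singleton.1 hc
    rw [map_mul]
    have : ψ t = 0 := by
      funext w'
      exact Ideal.Quotient.eq_zero_iff_mem.2 (Ideal.mem_span_singleton_self _)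
    rw [this, zero_mul]
  let Ψ : (C ⧸ Ideal.span {t}) →ₐ[K] (∀ w' : T, w'.1.A ⧸ I w') :=
    Ideal.Quotient.liftₐ (Ideal.span {t}) ψ hψ
  have hsurj : Function.Surjective Ψ.toLinearMap := by
    rw [← LinearMap.range_eq_top, eq_top_iff, ← bq.span_eq, Submodule.span_le]
    rintro _ ⟨i, rfl⟩
    refine ⟨Ideal.Quotient.mk _ ⟨x i, Algebra.subset_adjoin (Or.inl (Or.inr ⟨i, rfl⟩))⟩, ?_⟩
    funext w'
    exact hx i w'
  exact LinearMap.finrank_le_finrank_of_surjective hsurj

end norm

end ZC
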