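import Pool.Agent.Helper15.ZF.Norm2

/-! # Norms and orders: the equality -/

set_option autoImplicit false

namespace ZC

universe u

open PCl IntermediateField

section norm

variable {K : Type u} {E : Type u} {E' : Type u} [Field K] [Field E] [Field E'] [Algebra K E]
  [Algebra K E'] [Algebra E E'] [IsScalarTower K E E']

theorem ind_mul [FiniteDimensional E E'] {c : E} {n : ℕ} (h : Ind K c n) :
    Ind K (algebraMap E E' c) (Module.finrank E E' * n) := by
  classical
  obtain ⟨v, hv⟩ := h
  let b := Module.finBasis E E'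
  refine ⟨fun i => algebraMap E E' (v (finProdFinEquiv.symm i).2) * b (finProdFinEquiv.symm i).1,
    fun p hp => ?_⟩
  have h1 : ∑ j, (∑ i, Polynomial.aeval c (p (finProdFinEquiv (j, i))) * v i) • b j = 0 := by
    rw [← hp, ← finProdFinEquiv.sum_comp, Fintype.sum_prod_type]
    refine Finset.sum_congr rfl fun j _ => ?_
    rw [Finset.sum_smul]
    refine Finset.sum_congr rfl fun i _ => ?_
    simp only [Equiv.symm_apply_apply]
    rw [Algebra.smul_def, map_mul, Polynomial.aeval_algebraMap_apply, mul_assoc]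
  have h2 := Fintype.linearIndependent_iff.1 b.linearIndependent _ h1
  funext k
  have h3 := hv _ (h2 (finProdFinEquiv.symm k).1)
  have h4 : p (finProdFinEquiv ((finProdFinEquiv.symm k).1, (finProdFinEquiv.symm k).2)) = 0 :=
    congrFun h3 (finProdFinEquiv.symm k).2
  rw [Prod.mk.eta, Equiv.apply_symm_apply] at h4
  exact h4

/-- The zeros of a function: the lower bound. -/
theorem le_zeros (hE : IsCurveField K E) {c : E} (htr : Transcendental K c)
    (T : Finset (Place K E)) (hsup : ∀ w, w.ord c ≠ 0 → w ∈ T) {n : ℕ} (hI : Ind K c n) :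
    n ≤ ∑ w ∈ T, (w.ord c).toNat * w.deg := by
  have hc : c ≠ 0 := by
    rintro rfl
    exact htr isAlgebraic_zero
  have h1 := le_polesK (fun w => w.ord) (fun w => w.isOrd_of hE.hRel) (Place.dvr hE)
    (Place.finite_residue hE) (fun z _ => Place.finite_ord hE.hRel z) htr T hsup hI
  have h2 := sum_ord_deg_of hE (fun w => w.ord) (fun w => w.isOrd_of hE.hRel) (Place.dvr hE)
    (Place.finite_residue hE) (fun z _ => Place.finite_ord hE.hRel z) hc T hsup
  have h6 : ∑ w ∈ T, w.ord c * (w.deg : ℤ) = ((∑ w ∈ T, (w.ord c).toNat * w.deg : ℕ) : ℤ)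
      - ((∑ w ∈ T, (-(w.ord c)).toNat * w.deg : ℕ) : ℤ) := by
    push_cast
    rw [← Finset.sum_sub_distrib]
    refine Finset.sum_congr rfl fun w _ => ?_
    rw [← sub_mul]
    congr 1
    omega
  rw [h6] at h2
  omega

/-- The places over a place. -/
noncomputable def lying (hE : IsCurveField K E) (hE' : IsCurveField K E')
    [FiniteDimensional E E'] (w : Place K E) : Finset (Place K E') :=
  (Place.finite_over hE hE' w).toFinset

theorem mem_lying (hE : IsCurveField K E) (hE' : IsCurveField K E') [FiniteDimensional E E']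
    (w : Place K E) (w' : Place K E') : w' ∈ lying hE hE' w ↔ w'.under E = w :=
  Set.Finite.mem_toFinset _

/-- The positive part of the equality for the elements of the smaller field. -/
theorem sum_lying_pos (hE : IsCurveField K E) (hE' : IsCurveField K E') [FiniteDimensional E E']
    {c : E} (htr : Transcendental K c) (w : Place K E) :
    ∑ w' ∈ lying hE hE' w, (w'.ord (algebraMap E E' c)).toNat * w'.deg =
      Module.finrank E E' * ((w.ord c).toNat * w.deg) := by
  classical
  have hc : c ≠ 0 := by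
    rintro rfl
    exact htr isAlgebraic_zero
  have hc' : algebraMap E E' c ≠ 0 := (map_ne_zero _).2 hc
  have htr' : Transcendental K (algebraMap E E' c) :=
    (transcendental_algebraMap_iff (algebraMap E E').injective).2 htr
  have hloc : ∀ w : Place K E,
      ∑ w' ∈ lying hE hE' w, (w'.ord (algebraMap E E' c)).toNat * w'.deg ≤
        Module.finrank E E' * ((w.ord c).toNat * w.deg) := by
    intro w
    by_cases hw : 0 ≤ w.ord c
    · have h1 := (sum_le_norm hE hE' w (lying hE hE' w) (mem_lying hE hE' w) hc' (fun w' hw' => by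
        rw [mem_lying] at hw'
        rw [← (w'.isOrd_of hE'.hRel).nonneg _ hc', w'.nonneg_under hE hE' hc, hw']
        exact hw)).2
      rw [Algebra.norm_algebraMap, (w.isOrd_of hE.hRel).pow hc] at h1
      refine h1.trans (le_of_eq ?_)
      rw [← mul_assoc]
      congr 1
      rw [Int.toNat_mul (Int.natCast_nonneg _) hw, Int.toNat_natCast]
    · rw [Finset.sum_eq_zero]
      · exact Nat.zero_le _
      · intro w' hw'
        rw [mem_lying] at hw'
        have h1 : ¬ 0 ≤ w'.ord (algebraMap E E' c) := by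
          rw [w'.nonneg_under hE hE' hc, hw']
          exact hw
        rw [Int.toNat_of_nonpos (by omega), zero_mul]
  set S := insert w (Place.finite_ord hE.hRel c).toFinset with hS
  have hsup : ∀ w : Place K E, w.ord c ≠ 0 → w ∈ S := fun w hw =>
    Finset.mem_insert_of_mem ((Set.Finite.mem_toFinset _).2 hw)
  have hsup' : ∀ w' : Place K E', w'.ord (algebraMap E E' c) ≠ 0 →
      w' ∈ S.biUnion (lying hE hE') := by
    intro w' hw'
    refine Finset.mem_biUnion.2 ⟨w'.under E, hsup _ fun h0 => hw' ?_, (mem_lying hE hE' _ _).2 rfl⟩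
    have h1 := w'.pos_under hE hE' hc
    have h2 := w'.nonneg_under hE hE' hc
    rw [h0] at h1 h2
    have h3 : 0 ≤ w'.ord (algebraMap E E' c) := h2.2 le_rfl
    have h4 : ¬ 0 < w'.ord (algebraMap E E' c) := fun h => lt_irrefl _ (h1.1 h)
    omega
  have hfin : ∃ n, Rel K c n ∧ Ind K c n := by
    obtain ⟨t, ht, hf⟩ := hE
    exact hfin_of ht hf c htr
  obtain ⟨n, hR, hI⟩ := hfin
  have h1 := le_zeros hE' htr' _ hsup' (ind_mul (E' := E') hI)
  rw [Finset.sum_biUnion (by
    intro w₁ _ w₂ _ h12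
    rw [Function.onFun, Finset.disjoint_left]
    intro w' h3 h4
    rw [mem_lying] at h3 h4
    exact h12 (h3.symm.trans h4))] at h1
  have h2 := zeros_leK (fun w => w.ord) (fun w => w.isOrd_of hE.hRel) (Place.dvr hE) hc htr S hR
  have h3 : Module.finrank E E' * ∑ w ∈ S, (w.ord c).toNat * w.deg ≤
      ∑ w ∈ S, ∑ w' ∈ lying hE hE' w, (w'.ord (algebraMap E E' c)).toNat * w'.deg :=
    (Nat.mul_le_mul_left _ h2).trans h1
  rw [Finset.mul_sum] at h3
  have h4 := (Finset.sum_eq_sum_iff_of_le fun w _ => hloc w).1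
    (le_antisymm (Finset.sum_le_sum fun w _ => hloc w) h3)
  exact h4 w (Finset.mem_insert_self _ _)

theorem sum_lying_const (hE : IsCurveField K E) (hE' : IsCurveField K E')
    [FiniteDimensional E E'] {c : E} (hc : c ≠ 0) (w : Place K E) :
    ∑ w' ∈ lying hE hE' w, w'.ord (algebraMap E E' c) * (w'.deg : ℤ) =
      Module.finrank E E' * (w.ord c * w.deg) := by
  have hc' : algebraMap E E' c ≠ 0 := (map_ne_zero _).2 hc
  by_cases htr : Transcendental K c
  · have htri : Transcendental K c⁻¹ := by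
      intro h
      have := h.inv
      rw [inv_inv] at this
      exact htr this
    have h1 := sum_lying_pos hE hE' htr w
    have h2 := sum_lying_pos hE hE' htri w
    have e1 : ∀ w' : Place K E', w'.ord (algebraMap E E' c⁻¹) = -w'.ord (algebraMap E E' c) :=
      fun w' => by rw [map_inv₀, (w'.isOrd_of hE'.hRel).inv hc']
    rw [(w.isOrd_of hE.hRel).inv hc] at h2
    simp only [e1] at h2
    have h3 : ∑ w' ∈ lying hE hE' w, w'.ord (algebraMap E E' c) * (w'.deg : ℤ) =
        ((∑ w' ∈ lying hE hE' w, (w'.ord (algebraMap E E' c)).toNat * w'.deg : ℕ) : ℤ) -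
        ((∑ w' ∈ lying hE hE' w, (-w'.ord (algebraMap E E' c)).toNat * w'.deg : ℕ) : ℤ) := by
      push_cast
      rw [← Finset.sum_sub_distrib]
      refine Finset.sum_congr rfl fun w _ => ?_
      rw [← sub_mul]
      congr 1
      omega
    rw [h3, h1, h2]
    push_cast
    rw [← mul_sub, ← sub_mul]
    congr 2
    omega
  · have h0 : ∀ w : Place K E, w.ord c = 0 := by
      intro w
      by_contra h
      apply htr
      rcases lt_or_gt_of_ne h with h | h
      · have h1 : c⁻¹ ∈ w.A.nonunits := by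
          rw [← (w.isOrd_of hE.hRel).pos_iff (inv_ne_zero hc), (w.isOrd_of hE.hRel).inv hc]
          omega
        have h2 := w.transc h1 (inv_ne_zero hc)
        intro h3
        exact h2 h3.inv
      · exact w.transc (((w.isOrd_of hE.hRel).pos_iff hc).1 h) hc
    rw [h0 w, zero_mul, mul_zero]
    refine Finset.sum_eq_zero fun w' _ => ?_
    have h1 := w'.pos_under hE hE' hc
    have h2 := w'.nonneg_under hE hE' hc
    rw [h0] at h1 h2
    have h3 : 0 ≤ w'.ord (algebraMap E E' c) := h2.2 le_rfl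
    have h4 : ¬ 0 < w'.ord (algebraMap E E' c) := fun h => lt_irrefl _ (h1.1 h)
    have h5 : w'.ord (algebraMap E E' c) = 0 := by omega
    rw [h5, zero_mul]

/-- **The norm formula**: the order of the norm. -/
theorem sum_lying (hE : IsCurveField K E) (hE' : IsCurveField K E') [FiniteDimensional E E']
    {θ : E'} (hθ : θ ≠ 0) (w : Place K E) :
    ∑ w' ∈ lying hE hE' w, w'.ord θ * (w'.deg : ℤ) = w.ord (Algebra.norm E θ) * w.deg := by
  classical
  have ho := w.isOrd_of hE.hRel
  have ho' : ∀ w' : Place K E', IsOrd w'.A w'.ord := fun w' => w'.isOrd_of hE'.hRel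
  set lam : E' → ℤ := fun θ => w.ord (Algebra.norm E θ) * w.deg -
    ∑ w' ∈ lying hE hE' w, w'.ord θ * (w'.deg : ℤ) with hlam
  have hn0 : ∀ θ : E', θ ≠ 0 → Algebra.norm E θ ≠ 0 := fun θ h => Algebra.norm_ne_zero_iff.2 h
  have hmul : ∀ a b : E', a ≠ 0 → b ≠ 0 → lam (a * b) = lam a + lam b := by
    intro a b ha hb
    simp only [hlam]
    rw [map_mul, ho.mul _ _ (hn0 a ha) (hn0 b hb)]
    have : ∑ w' ∈ lying hE hE' w, w'.ord (a * b) * (w'.deg : ℤ) =
        ∑ w' ∈ lying hE hE' w, w'.ord a * (w'.deg : ℤ) +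
        ∑ w' ∈ lying hE hE' w, w'.ord b * (w'.deg : ℤ) := by
      rw [← Finset.sum_add_distrib]
      refine Finset.sum_congr rfl fun w' _ => ?_
      rw [(ho' w').mul _ _ ha hb, add_mul]
    rw [this]
    ring
  have hconst : ∀ c : E, c ≠ 0 → lam (algebraMap E E' c) = 0 := by
    intro c hc
    simp only [hlam]
    rw [sum_lying_const hE hE' hc, Algebra.norm_algebraMap, ho.pow hc]
    ring
  have hpos : ∀ a : E', a ≠ 0 → (∀ w' ∈ lying hE hE' w, 0 ≤ w'.ord a) → 0 ≤ lam a := by
    intro a ha haw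
    obtain ⟨h1, h2⟩ := sum_le_norm hE hE' w (lying hE hE' w) (mem_lying hE hE' w) ha
      (fun w' hw' => ((ho' w').nonneg _ ha).1 (haw w' hw'))
    have h3 : ∑ w' ∈ lying hE hE' w, w'.ord a * (w'.deg : ℤ) =
        ((∑ w' ∈ lying hE hE' w, (w'.ord a).toNat * w'.deg : ℕ) : ℤ) := by
      push_cast
      refine Finset.sum_congr rfl fun w' hw' => ?_
      rw [Int.toNat_of_nonneg (haw w' hw')]
    simp only [hlam]
    rw [h3, sub_nonneg]
    calc ((∑ w' ∈ lying hE hE' w, (w'.ord a).toNat * w'.deg : ℕ) : ℤ)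
        ≤ (((w.ord (Algebra.norm E a)).toNat * w.deg : ℕ) : ℤ) := by exact_mod_cast h2
      _ = w.ord (Algebra.norm E a) * w.deg := by
          push_cast
          rw [Int.toNat_of_nonneg h1]
  -- a large power of a uniformiser
  obtain ⟨c₀, hc₀, hc₁⟩ := w.exists_ord_one hE
  have hc₀' : algebraMap E E' c₀ ≠ 0 := (map_ne_zero _).2 hc₀
  set k : ℕ := ∑ w' ∈ lying hE hE' w, (w'.ord θ).natAbs with hk
  set c : E := c₀ ^ k with hc
  have hc0 : c ≠ 0 := pow_ne_zero _ hc₀
  have hc0' : algebraMap E E' c ≠ 0 := (map_ne_zero _).2 hc0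
  have hck : ∀ w' ∈ lying hE hE' w, ((w'.ord θ).natAbs : ℤ) ≤ w'.ord (algebraMap E E' c) := by
    intro w' hw'
    have h1 : 0 < w'.ord (algebraMap E E' c₀) := by
      rw [w'.pos_under hE hE' hc₀, (mem_lying hE hE' w w').1 hw', hc₁]
      exact one_pos
    have h2 : (w'.ord θ).natAbs ≤ k := Finset.single_le_sum
      (f := fun w' : Place K E' => (w'.ord θ).natAbs) (fun _ _ => Nat.zero_le _) hw'
    rw [hc, map_pow, (ho' w').pow hc₀']
    have h3 : ((w'.ord θ).natAbs : ℤ) ≤ k := by exact_mod_cast h2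
    nlinarith
  have hp1 : 0 ≤ lam (algebraMap E E' c * θ) := by
    refine hpos _ (mul_ne_zero hc0' hθ) fun w' hw' => ?_
    rw [(ho' w').mul _ _ hc0' hθ]
    have := hck w' hw'
    omega
  have hp2 : 0 ≤ lam (algebraMap E E' c * θ⁻¹) := by
    refine hpos _ (mul_ne_zero hc0' (inv_ne_zero hθ)) fun w' hw' => ?_
    rw [(ho' w').mul _ _ hc0' (inv_ne_zero hθ), (ho' w').inv hθ]
    have := hck w' hw'
    omega
  have hs : lam (algebraMap E E' c * θ) + lam (algebraMap E E' c * θ⁻¹) = 0 := by
    rw [← hmul _ _ (mul_ne_zero hc0' hθ) (mul_ne_zero hc0' (inv_ne_zero hθ))]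
    have : algebraMap E E' c * θ * (algebraMap E E' c * θ⁻¹) = algebraMap E E' (c * c) := by
      rw [map_mul]
      field_simp
    rw [this]
    exact hconst _ (mul_ne_zero hc0 hc0)
  have h0 : lam (algebraMap E E' c * θ) = 0 := by omega
  rw [hmul _ _ hc0' hθ, hconst c hc0, zero_add] at h0
  simp only [hlam] at h0
  omega

end norm

end ZC
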