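import Pool.Agent.Helper15.ZF.BC
import Pool.Agent.Helper15.ZF.Deg

/-! # Rational points -/

set_option autoImplicit false

open MvPolynomial ZC TensorProduct

namespace ZF

universe u

section rational

variable {K : Type u} [Field K] {V ι R : Type} {p : V → ι}

/-- The cycle of a rational point. -/
theorem ptCycle_rational (X : MVar K p R) (x : V → K) (hx : X.IsPt x) :
    ptCycle X x hx = Finsupp.single (closedPt X x hx) 1 := by
  have halg : Algebra.IsAlgebraic K K := inferInstance
  have htop : coordField K p x = ⊤ := Subsingleton.elim _ _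
  rw [ptCycle, dif_pos halg, htop, IntermediateField.finrank_top, Nat.cast_one]

theorem isPt_map (X : MVar K p R) (L : Type u) [Field L] [Algebra K L] {x : V → K}
    (hx : X.IsPt x) : (X.bc L).IsPt fun v => algebraMap K L (x v) :=
  isPt_bc X L (L := K) (M := L) (algebraMap K L) (fun _ => rfl) hx

/-- The base change of a rational point. -/
theorem bcPt_rational (X : MVar K p R) (K' : Type u) [Field K'] [Algebra K K'] (x : V → K)
    (hx : X.IsPt x) :
    bcPt X K' x hx = Finsupp.single (closedPt (X.bc K') _ (isPt_map X K' hx)) 1 := by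
  rw [← ptCycle_rational]
  unfold bcPt specCycle
  have hbij : Function.Bijective (algebraMap K' (K' ⊗[K] K)) :=
    (Algebra.TensorProduct.rid K K' K').symm.bijective
  have hunit : ∀ s : K' ⊗[K] K, s ≠ 0 → IsUnit s := by
    intro s hs
    obtain ⟨a, rfl⟩ := hbij.2 s
    have ha : a ≠ 0 := by
      rintro rfl
      exact hs (map_zero _)
    exact (IsUnit.mk0 a ha).map _
  have hart := isArtinian_tensor (K := K) (K' := K') (L := K)
  let e : K' ≃+* (K' ⊗[K] K) := RingEquiv.ofBijective _ hbij
  let _ : Unique (PrimeSpectrum (K' ⊗[K] K)) :=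
    (PrimeSpectrum.comapEquiv e).toEquiv.symm.unique
  rw [finsum_unique]
  set P : PrimeSpectrum (K' ⊗[K] K) := default
  have hs1 : Function.Surjective (algebraMap K' (Localization.AtPrime P.asIdeal)) := by
    rw [IsScalarTower.algebraMap_eq K' (K' ⊗[K] K) (Localization.AtPrime P.asIdeal)]
    have hM : P.asIdeal.primeCompl ≤ IsUnit.submonoid (K' ⊗[K] K) := by
      intro s hs
      refine hunit s ?_
      rintro rfl
      exact hs P.asIdeal.zero_mem
    exact (IsLocalization.atUnits (K' ⊗[K] K) P.asIdeal.primeCompl
      (S := Localization.AtPrime P.asIdeal) hM).surjective.comp hbij.2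
  have hlen : Module.length (Localization.AtPrime P.asIdeal)
      (Localization.AtPrime P.asIdeal) = 1 := by
    rw [← Module.length_eq_of_surjective (S := K') (R := Localization.AtPrime P.asIdeal)
      (M := Localization.AtPrime P.asIdeal) hs1,
      ← (LinearEquiv.ofBijective (Algebra.linearMap K' (Localization.AtPrime P.asIdeal))
        ⟨(algebraMap K' (Localization.AtPrime P.asIdeal)).injective, hs1⟩).length_eq]
    exact Module.length_eq_one K' K'
  have hs2 : Function.Surjective (algebraMap K' P.asIdeal.ResidueField) := by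
    rw [IsScalarTower.algebraMap_eq K' (K' ⊗[K] K) P.asIdeal.ResidueField]
    exact (P.asIdeal.algebraMap_residueField_surjective).comp hbij.2
  rw [mult, hlen, ENat.toNat_one, one_smul]
  symm
  refine ptCycle_congr (X.bc K') (AlgEquiv.ofBijective (Algebra.ofId K' P.asIdeal.ResidueField)
    ⟨(algebraMap K' P.asIdeal.ResidueField).injective, hs2⟩) (fun _ => 1)
    (fun _ => one_ne_zero) _ _ (fun v => ?_)
  rw [one_mul]
  exact bc_aux (L := K) P (x v)

variable [Finite V]

theorem bcZ_rational (X : MVar K p R) (K' : Type u) [Field K'] [Algebra K K'] (x : V → K)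
    (hx : X.IsPt x) : bcZ X K' (Finsupp.single (closedPt X x hx) 1) =
      Finsupp.single (closedPt (X.bc K') _ (isPt_map X K' hx)) 1 := by
  rw [← ptCycle_rational, bcZ_ptCycle X K' x hx (Subsingleton.elim _ _), bcPt_rational]

theorem deg_rational (X : MVar K p R) (x : V → K) (hx : X.IsPt x) :
    CH0.deg X (CH0.mk X (Finsupp.single (closedPt X x hx) 1)) = 1 := by
  rw [CH0.deg_mk, ← ptCycle_rational, degZ_ptCycle, Module.finrank_self, Nat.cast_one]

end rational

end ZF
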