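import Pool.Agent.Helper15.ZF.FamDefs
import Pool.Agent.Helper72.ZC.Final

/-! # Transfer of exactness, and exactness for iterated families -/

set_option autoImplicit false

open MvPolynomial ZC

namespace ZF

universe u

variable {F k : Type u} [Field F] [Field k] [Algebra F k] {V ι R : Type} [Finite V] {p : V → ι}

section transfer

variable {n r : ℕ} {X : MVar k (addBlock n p) (Fin r ⊕ R)} {B : MVar k p R}

/-- Families with global push-forward are global. -/
theorem transfer (h : Low X B) (hk : C2 k) (hv : ∀ v : Place F k, C2 v.Completion)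
    (z : LocFam F X) (hz : (z.push h.isOver).Global) : z.Global := by
  obtain ⟨W, hW, hWz⟩ := hz
  refine ⟨fun m => secZ h hk (W m), ?_, fun v m hm => ?_⟩
  · intro m m' hm hm' hmm
    obtain ⟨g, hg⟩ := hW m m' hm hm' hmm
    refine ⟨CH0.sec h hk g, ?_⟩
    rw [← map_nsmul, ← hg, map_sub, CH0.sec_mk, CH0.sec_mk]
  · obtain ⟨g, hg⟩ := hWz v m hm
    refine ⟨CH0.sec (h.bc v.Completion) (hv v) g, ?_⟩
    apply (CH0.push_bijective (h.bc v.Completion) (hv v)).1
    rw [map_nsmul, CH0.push_sec, ← hg, map_sub, bcCl, CH0.push_mk, pushZ_bcZ_secZ]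
    rfl

end transfer

/-- Orthogonal families are global if the Chow groups of zero-cycles over the completions are
generated by the class of a global point. -/
theorem global_of_gen [Finite F] (hk : IsCurveField F k)
    (X : MVar k p R) (x : V → k) (hx : X.IsPt x)
    (hgen : ∀ (v : Place F k) (c : CH0 (X.bc v.Completion)), ∃ m : ℤ, c = m •
      CH0.mk (X.bc v.Completion) (Finsupp.single (closedPt (X.bc v.Completion) _
        (isPt_map X v.Completion hx)) 1))
    (z : LocFam F X) (hz : z.Compat) (horth : z.Orth) : z.Global := by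
  classical
  set P : ∀ v : Place F k, CH0 (X.bc v.Completion) := fun v =>
    CH0.mk (X.bc v.Completion) (Finsupp.single (closedPt (X.bc v.Completion) _
      (isPt_map X v.Completion hx)) 1) with hP
  have hP1 : ∀ v, CH0.deg _ (P v) = 1 := fun v => deg_rational _ _ _
  have hgen' : ∀ (v : Place F k) (c : CH0 (X.bc v.Completion)), c = CH0.deg _ c • P v := by
    intro v c
    obtain ⟨m, rfl⟩ := hgen v c
    rw [map_zsmul, hP1, smul_eq_mul, mul_one]
  set c : Place F k → ℕ → ℤ := fun v m => CH0.deg _ (z v m) with hc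
  have hcc : ∀ v, IsCompat (c v) := by
    intro v m m' hm hm' hmm
    obtain ⟨g, hg⟩ := hz v m m' hm hm' hmm
    exact ⟨CH0.deg _ g, by rw [hc]; simp only; rw [← map_sub, hg, map_nsmul]⟩
  have key := ZC.arith hk c hcc horth
  obtain ⟨v₁, v₂, -⟩ := exists_two_places hk
  refine ⟨fun m => c v₁ m • Finsupp.single (closedPt X x hx) 1, ?_, fun v m hm => ?_⟩
  · intro m m' hm hm' hmm
    obtain ⟨g, hg⟩ := hcc v₁ m m' hm hm' hmm
    refine ⟨CH0.mk X (g • Finsupp.single (closedPt X x hx) 1), ?_⟩
    rw [← map_sub, ← map_nsmul]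
    congr 1
    change c v₁ m' • Finsupp.single (closedPt X x hx) 1 -
      c v₁ m • Finsupp.single (closedPt X x hx) 1 = _
    rw [sub_eq_add_neg, ← sub_zsmul, hg, nsmul_eq_mul, mul_zsmul, natCast_zsmul]
  · obtain ⟨e, he⟩ := key v₁ v m hm
    refine ⟨e • P v, ?_⟩
    conv_lhs => rw [hgen' v (z v m)]
    rw [bcCl, map_zsmul, bcZ_rational, map_zsmul]
    change c v₁ m • P v - c v m • P v = _
    rw [sub_eq_add_neg, ← sub_zsmul, he, mul_zsmul, natCast_zsmul]

/-- The point. -/
theorem point_gen {K : Type u} [Field K] (X : MVar K (id : Empty → Empty) Empty)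
    (x : Empty → K) (hx : X.IsPt x) (c : CH0 X) :
    ∃ m : ℤ, c = m • CH0.mk X (Finsupp.single (closedPt X x hx) 1) := by
  obtain ⟨c, rfl⟩ := CH0.mk_surjective X c
  have hP : ∀ P : ClosedPoint X, P = closedPt X x hx := by
    intro P
    induction P using Quotient.inductionOn with
    | h y =>
      refine Quotient.sound ⟨AlgEquiv.refl, fun _ => 1, fun _ => one_ne_zero, fun v => v.elim⟩
  induction c using Finsupp.induction_linear with
  | zero => exact ⟨0, by rw [zero_zsmul, map_zero]⟩
  | add f g hf hg =>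
    obtain ⟨a, ha⟩ := hf
    obtain ⟨b, hb⟩ := hg
    exact ⟨a + b, by rw [add_zsmul, map_add, ha, hb]⟩
  | single P a =>
    refine ⟨a, ?_⟩
    rw [single_zsmul, map_zsmul, hP P]

theorem LocFam.Compat.push {n r : ℕ} {X : MVar k (addBlock n p) (Fin r ⊕ R)} {B : MVar k p R}
    (h : X.IsOver B) {z : LocFam F X} (hz : z.Compat) : (z.push h).Compat := by
  intro v m m' hm hm' hmm
  obtain ⟨g, hg⟩ := hz v m m' hm hm' hmm
  refine ⟨CH0.push (h.bc v.Completion) g, ?_⟩
  rw [← map_nsmul, ← hg, map_sub]
  rfl

theorem LocFam.Orth.push {n r : ℕ} {X : MVar k (addBlock n p) (Fin r ⊕ R)} {B : MVar k p R}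
    (h : X.IsOver B) {z : LocFam F X} (hz : z.Orth) : (z.push h).Orth := by
  intro f m hf hm
  rw [← hz f m hf hm]
  refine finsum_congr fun v => ?_
  rw [constPairing, constPairing, LocFam.push, pushCl, CH0.deg_push]

omit [Finite V] in
theorem tower_exact [Finite F] (hk : IsCurveField F k)
    {X : MVar k p R} (hX : IsTower X) : ∀ [Finite V] (z : LocFam F X), z.Compat → z.Orth →
      z.Global := by
  induction hX with
  | point X =>
    intro _ z hz horth
    have hx : X.IsPt (fun e => e.elim : Empty → k) := ⟨fun j => j.elim, fun i => i.elim⟩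
    exact global_of_gen hk X _ hx (fun v c => point_gen (X.bc v.Completion) _ _ c) z hz horth
  | @step V ι R p n r B X hB h ih =>
    intro hfin z hz horth
    have hV : Finite V := Finite.of_injective (Sum.inr : V → Fin (n + 1) ⊕ V) Sum.inr_injective
    exact transfer h hk.c2 (fun v => v.c2 hk) z (ih _ (hz.push h.isOver) (horth.push h.isOver))

end ZF
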