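import Pool.Agent.Helper33.ZC.DegZ

/-! # Places in finite extensions of function fields -/

set_option autoImplicit false

namespace ZC

universe u

open PCl

section under

variable {K : Type u} (E : Type u) {E' : Type u} [Field K] [Field E] [Field E'] [Algebra K E]
  [Algebra K E'] [Algebra E E'] [IsScalarTower K E E']

theorem eq_top_of_comap [Algebra.IsAlgebraic E E'] (V : ValuationSubring E')
    (h : V.comap (algebraMap E E') = ⊤) : V = ⊤ := by
  rw [eq_top_iff]
  intro x _
  have hmem : ∀ a : E, algebraMap E E' a ∈ V := fun a => by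
    have : a ∈ V.comap (algebraMap E E') := by rw [h]; trivial
    exact this
  let _ : Algebra E V := ((algebraMap E E').codRestrict V.toSubring hmem).toAlgebra
  have : IsScalarTower E V E' := IsScalarTower.of_algebraMap_eq fun a => rfl
  have hx : IsIntegral E x := Algebra.IsIntegral.isIntegral x
  have hx' : IsIntegral V x := hx.tower_top
  obtain ⟨y, hy⟩ := IsIntegrallyClosed.isIntegral_iff.1 hx'
  rw [← hy]
  exact y.2

/-- The place of `E` under a place of an algebraic extension `E'`. -/
noncomputable def Place.under [Algebra.IsAlgebraic E E'] (w : Place K E') : Place K E where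
  A := w.A.comap (algebraMap E E')
  ne_top h := w.ne_top (eq_top_of_comap E w.A h)
  mem a := by
    change algebraMap E E' (algebraMap K E a) ∈ w.A
    rw [← IsScalarTower.algebraMap_apply]
    exact w.mem a

variable {E}

theorem Place.mem_under [Algebra.IsAlgebraic E E'] (w : Place K E') (a : E) :
    a ∈ (w.under E).A ↔ algebraMap E E' a ∈ w.A := Iff.rfl

/-- A valuation ring between a discrete valuation ring and its field of fractions. -/
theorem eq_or_eq_top {A C : ValuationSubring E} [IsDiscreteValuationRing A] (h : A ≤ C) :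
    C = A ∨ C = ⊤ := by
  by_cases hC : C = ⊤
  · exact Or.inr hC
  left
  obtain ⟨o, ho⟩ := exists_isOrd A
  refine le_antisymm (fun x hx => ?_) h
  by_contra hxA
  apply hC
  have hx0 : x ≠ 0 := fun h0 => hxA (h0 ▸ A.zero_mem)
  have hneg : o x < 0 := by
    by_contra hcon
    exact hxA ((ho.nonneg x hx0).1 (not_lt.1 hcon))
  rw [eq_top_iff]
  intro y _
  by_cases hy0 : y = 0
  · rw [hy0]; exact C.zero_mem
  -- `y / x ^ m` is integral for large `m`
  set m : ℕ := (o y).natAbs with hm
  have h1 : y / x ^ m ∈ A := by
    rw [← ho.nonneg _ (div_ne_zero hy0 (pow_ne_zero _ hx0)), ho.div hy0 (pow_ne_zero _ hx0),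
      ho.pow hx0]
    have h2 : -(m : ℤ) ≤ o y := by omega
    nlinarith [Int.natCast_nonneg m]
  have h2 : y = y / x ^ m * x ^ m := by
    rw [div_mul_cancel₀ _ (pow_ne_zero _ hx0)]
  rw [h2]
  exact C.mul_mem _ _ (h h1) (pow_mem hx _)

/-- An element which is integral at all places over `w` is integral over the ring of `w`. -/
theorem isIntegral_of_under [Algebra.IsAlgebraic E E'] (hE : IsCurveField K E) (w : Place K E)
    (b : E') (hb : ∀ w' : Place K E', w'.under E = w → b ∈ w'.A) : IsIntegral w.A b := by
  have hdvr := w.dvr hE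
  set s : Set E' := (fun a : w.A => algebraMap E E' a) '' Set.univ with hs
  have h1 : b ∈ (⨅ V : {V : ValuationSubring E' // s ⊆ V.toSubring}, V.1.toSubring) := by
    rw [Subring.mem_iInf]
    rintro ⟨V, hV⟩
    change b ∈ V
    have hle : w.A ≤ V.comap (algebraMap E E') := fun a ha => hV ⟨⟨a, ha⟩, trivial, rfl⟩
    rcases eq_or_eq_top hle with h2 | h2
    · refine hb ⟨V, fun h => ?_, fun a => ?_⟩ ?_
      · apply w.ne_top
        rw [← h2, h]
        rfl
      · have := hle (w.mem a)
        rw [ValuationSubring.mem_comap, ← IsScalarTower.algebraMap_apply] at this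
        exact this
      · exact Place.ext_A h2
    · rw [eq_top_of_comap E V h2]
      trivial
  rw [iInf_valuationSubring_superset] at h1
  set C := Subring.closure s with hC
  let f : w.A →+* C := (algebraMap w.A E').codRestrict C fun a =>
    Subring.subset_closure ⟨a, trivial, rfl⟩
  let _ : Algebra w.A C := f.toAlgebra
  have : IsScalarTower w.A C E' := IsScalarTower.of_algebraMap_eq fun a => rfl
  have hsurj : Function.Surjective (algebraMap w.A C) := by
    rintro ⟨c, hc⟩
    have hcl : C ≤ (algebraMap w.A E').range := by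
      rw [hC, Subring.closure_le]
      rintro _ ⟨a, -, rfl⟩
      exact ⟨a, rfl⟩
    obtain ⟨a, ha⟩ := hcl hc
    exact ⟨a, Subtype.ext ha⟩
  have : Algebra.IsIntegral w.A C := ⟨fun x => RingHom.isIntegral_of_surjective _ hsurj x⟩
  exact isIntegral_trans (A := C) b h1

/-- The residue degree is multiplicative; positivity of the order goes down. -/
theorem Place.pos_under [Algebra.IsAlgebraic E E'] (hE : IsCurveField K E)
    (hE' : IsCurveField K E') (w' : Place K E') {c : E} (hc : c ≠ 0) :
    0 < w'.ord (algebraMap E E' c) ↔ 0 < (w'.under E).ord c := by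
  have hc' : algebraMap E E' c ≠ 0 := (map_ne_zero _).2 hc
  rw [(w'.isOrd_of hE'.hRel).pos_iff hc', ((w'.under E).isOrd_of hE.hRel).pos_iff hc,
    w'.A.mem_nonunits_iff_or, (w'.under E).A.mem_nonunits_iff_or]
  rw [Place.mem_under, map_inv₀]
  simp [hc]

theorem Place.nonneg_under [Algebra.IsAlgebraic E E'] (hE : IsCurveField K E)
    (hE' : IsCurveField K E') (w' : Place K E') {c : E} (hc : c ≠ 0) :
    0 ≤ w'.ord (algebraMap E E' c) ↔ 0 ≤ (w'.under E).ord c := by
  have hc' : algebraMap E E' c ≠ 0 := (map_ne_zero _).2 hc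
  rw [(w'.isOrd_of hE'.hRel).nonneg _ hc', ((w'.under E).isOrd_of hE.hRel).nonneg _ hc,
    Place.mem_under]

/-- A uniformiser. -/
theorem Place.exists_ord_one (hE : IsCurveField K E) (w : Place K E) :
    ∃ c : E, c ≠ 0 ∧ w.ord c = 1 := (w.isOrd_of hE.hRel).surj

/-- Finitely many places lie over a place. -/
theorem Place.finite_over [Algebra.IsAlgebraic E E'] (hE : IsCurveField K E)
    (hE' : IsCurveField K E') (w : Place K E) : {w' : Place K E' | w'.under E = w}.Finite := by
  obtain ⟨c, hc, hc1⟩ := w.exists_ord_one hE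
  refine (Place.finite_ord hE'.hRel (algebraMap E E' c)).subset fun w' hw' => ?_
  have h1 : 0 < w'.ord (algebraMap E E' c) := by
    rw [w'.pos_under hE hE' hc, hw', hc1]
    exact one_pos
  exact h1.ne'

end under

end ZC
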